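import Pool.Agent.Run7.h667.TC.SS

/-!
# Coupled copies of an operator
-/

set_option autoImplicit false
open Finset Filter Topology Polynomial
open Pool.Agent.Y280

namespace Run7.h667.TC

variable {E : Type*} [NormedAddCommGroup E] [NormedSpace ℂ E]

/-- `n` copies of the range of the projection `P`, with projections, which span their `ℓ_p` sum;
the first copy is the range of `P` itself -/
structure Cop (p : ℝ) (P : E →L[ℂ] E) (U V : ℕ → E →L[ℂ] E) (n : ℕ) : Prop where
  U0 : U 0 = P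
  V0 : V 0 = P
  PP : P * P = P
  VU : ∀ i < n, ∀ j < n, V i * U j = if i = j then P else 0
  PV : ∀ i < n, P * V i = V i
  UP : ∀ i < n, U i * P = U i
  up : ∀ z : ℕ → E, ‖∑ i ∈ range n, U i (z i)‖ ^ p ≤ ∑ i ∈ range n, ‖z i‖ ^ p
  lo : ∀ x, ∑ i ∈ range n, ‖V i x‖ ^ p ≤ ‖x‖ ^ p

/-- the operator `A ⊗ 1 + 1 ⊗ J` -/
noncomputable def bigO (A : E →L[ℂ] E) (U V : ℕ → E →L[ℂ] E) (m : ℕ) (δ w : ℝ) : E →L[ℂ] E :=
  ∑ j ∈ range (m + 2), U j * A * V j + ∑ j ∈ range (m + 1), wt m δ w j • (U (j + 1) * V j)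

section

variable {p q : ℝ} {P A : E →L[ℂ] E} {U V : ℕ → E →L[ℂ] E} {n : ℕ}

lemma Cop.norm_U (h : Cop p P U V n) (hp : 0 < p) {i : ℕ} (hi : i < n) (z : E) :
    ‖U i z‖ ≤ ‖z‖ := by
  have h1 := h.up fun j => if j = i then z else 0
  have e1 : ∑ j ∈ range n, U j (if j = i then z else 0) = U i z := by
    rw [sum_eq_single i]
    · rw [if_pos rfl]
    · intro b _ hb
      rw [if_neg hb, map_zero]
    · intro h'
      exact absurd (mem_range.2 hi) h'
  have e2 : ∑ j ∈ range n, ‖if j = i then z else 0‖ ^ p = ‖z‖ ^ p := by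
    rw [sum_eq_single i]
    · rw [if_pos rfl]
    · intro b _ hb
      rw [if_neg hb, norm_zero, Real.zero_rpow hp.ne']
    · intro h'
      exact absurd (mem_range.2 hi) h'
  rw [e1, e2] at h1
  exact (Real.rpow_le_rpow_iff (norm_nonneg _) (norm_nonneg _) hp).1 h1

lemma Cop.norm_V (h : Cop p P U V n) (hp : 0 < p) {i : ℕ} (hi : i < n) (z : E) :
    ‖V i z‖ ≤ ‖z‖ := by
  have h1 := h.lo z
  have h2 := single_le_sum (f := fun i => ‖V i z‖ ^ p) (fun _ _ => by positivity)
    (mem_range.2 hi)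
  exact (Real.rpow_le_rpow_iff (norm_nonneg _) (norm_nonneg _) hp).1 (h2.trans h1)

lemma Cop.norm_U' (h : Cop p P U V n) (hp : 0 < p) {i : ℕ} (hi : i < n) : ‖U i‖ ≤ 1 :=
  ContinuousLinearMap.opNorm_le_bound _ zero_le_one fun z => by
    rw [one_mul]; exact h.norm_U hp hi z

lemma Cop.norm_V' (h : Cop p P U V n) (hp : 0 < p) {i : ℕ} (hi : i < n) : ‖V i‖ ≤ 1 :=
  ContinuousLinearMap.opNorm_le_bound _ zero_le_one fun z => by
    rw [one_mul]; exact h.norm_V hp hi z

lemma Cop.norm_sum (h : Cop p P U V n) (hp : 0 < p) {r : ℝ} (hr : 0 ≤ r) {z : ℕ → E} {x : E}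
    (hz : ∑ i ∈ range n, ‖z i‖ ^ p ≤ r ^ p * ‖x‖ ^ p) :
    ‖∑ i ∈ range n, U i (z i)‖ ≤ r * ‖x‖ := by
  have h1 := (h.up z).trans hz
  rw [← Real.mul_rpow hr (norm_nonneg _)] at h1
  exact (Real.rpow_le_rpow_iff (norm_nonneg _) (by positivity) hp).1 h1

lemma norm_wt_le {m : ℕ} {δ w : ℝ} (hδ : 0 ≤ δ) (hδw : δ ≤ w) (j : ℕ) : ‖wt m δ w j‖ ≤ w := by
  unfold wt
  split_ifs
  · rw [Complex.norm_real, Real.norm_of_nonneg hδ]
    exact hδw
  · rw [Complex.norm_real, Real.norm_of_nonneg (hδ.trans hδw)]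

lemma norm_bigO {m : ℕ} (h : Cop p P U V (m + 2)) (hp : 0 < p) {r : ℝ} (hr : 0 ≤ r)
    (hA : ‖A‖ ≤ r) {δ w : ℝ} (hδ : 0 ≤ δ) (hδw : δ ≤ w) : ‖bigO A U V m δ w‖ ≤ r + w := by
  have hw : 0 ≤ w := hδ.trans hδw
  refine ContinuousLinearMap.opNorm_le_bound _ (by positivity) fun x => ?_
  have e1 : bigO A U V m δ w x = ∑ j ∈ range (m + 2), U j (A (V j x)) +
      ∑ j ∈ range (m + 1), wt m δ w j • U (j + 1) (V j x) := by
    unfold bigO
    rw [_root_.add_apply, _root_.sum_apply, _root_.sum_apply]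
    rfl
  have h1 : ‖∑ j ∈ range (m + 2), U j (A (V j x))‖ ≤ r * ‖x‖ := by
    refine h.norm_sum hp hr ?_
    refine le_trans ?_ (mul_le_mul_of_nonneg_left (h.lo x) (by positivity))
    rw [mul_sum]
    refine sum_le_sum fun j _ => ?_
    rw [← Real.mul_rpow hr (norm_nonneg _)]
    refine Real.rpow_le_rpow (norm_nonneg _) ?_ hp.le
    exact (A.le_opNorm _).trans (mul_le_mul_of_nonneg_right hA (norm_nonneg _))
  have h2 : ‖∑ j ∈ range (m + 1), wt m δ w j • U (j + 1) (V j x)‖ ≤ w * ‖x‖ := by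
    have e2 : ∑ j ∈ range (m + 1), wt m δ w j • U (j + 1) (V j x) =
        ∑ i ∈ range (m + 2), U i (if i = 0 then 0 else wt m δ w (i - 1) • V (i - 1) x) := by
      rw [sum_range_succ' _ (m + 1)]
      simp
    rw [e2]
    refine h.norm_sum hp hw ?_
    rw [sum_range_succ' _ (m + 1)]
    simp only [Nat.add_eq_zero_iff, one_ne_zero, and_false, if_false, if_true, norm_zero,
      Real.zero_rpow hp.ne', add_zero, Nat.add_sub_cancel]
    have h3 : ∑ j ∈ range (m + 1), ‖V j x‖ ^ p ≤ ‖x‖ ^ p := by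
      refine le_trans ?_ (h.lo x)
      exact sum_le_sum_of_subset_of_nonneg (range_mono (by omega)) fun _ _ _ => by positivity
    refine le_trans ?_ (mul_le_mul_of_nonneg_left h3 (by positivity))
    rw [mul_sum]
    refine sum_le_sum fun j _ => ?_
    rw [norm_smul, ← Real.mul_rpow hw (norm_nonneg _)]
    refine Real.rpow_le_rpow (by positivity) ?_ hp.le
    exact mul_le_mul_of_nonneg_right (norm_wt_le hδ hδw j) (norm_nonneg _)
  rw [e1]
  refine (norm_add_le _ _).trans ?_
  linarith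

lemma V_bigO {m : ℕ} (h : Cop p P U V (m + 2)) (hPA : P * A = A) (δ w : ℝ) {a : ℕ}
    (ha : a ≤ m + 1) : V a * bigO A U V m δ w =
      A * V a + if 0 < a then wt m δ w (a - 1) • V (a - 1) else 0 := by
  unfold bigO
  rw [mul_add, mul_sum, mul_sum]
  congr 1
  · rw [sum_eq_single a]
    · rw [← mul_assoc, ← mul_assoc, h.VU a (by omega) a (by omega), if_pos rfl, hPA]
    · intro b hb hba
      rw [mem_range] at hb
      rw [← mul_assoc, ← mul_assoc, h.VU a (by omega) b hb, if_neg hba.symm, zero_mul, zero_mul]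
    · intro h'
      exact absurd (mem_range.2 (by omega)) h'
  · split_ifs with h0
    · rw [sum_eq_single (a - 1)]
      · rw [mul_smul_comm, ← mul_assoc, Nat.sub_add_cancel h0, h.VU a (by omega) a (by omega),
          if_pos rfl, h.PV _ (by omega)]
      · intro b hb hba
        rw [mem_range] at hb
        rw [mul_smul_comm, ← mul_assoc, h.VU a (by omega) (b + 1) (by omega),
          if_neg (by omega), zero_mul, smul_zero]
      · intro h'
        exact absurd (mem_range.2 (by omega)) h'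
    · apply sum_eq_zero
      intro b hb
      rw [mem_range] at hb
      rw [mul_smul_comm, ← mul_assoc, h.VU a (by omega) (b + 1) (by omega),
        if_neg (by omega), zero_mul, smul_zero]

lemma bigO_U {m : ℕ} (h : Cop p P U V (m + 2)) (hAP : A * P = A) (δ w : ℝ) {b : ℕ}
    (hb : b ≤ m + 1) : bigO A U V m δ w * U b =
      U b * A + if b < m + 1 then wt m δ w b • U (b + 1) else 0 := by
  unfold bigO
  rw [add_mul, sum_mul, sum_mul]
  congr 1
  · rw [sum_eq_single b]
    · rw [mul_assoc, h.VU b (by omega) b (by omega), if_pos rfl, mul_assoc, hAP]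
    · intro a ha hab
      rw [mem_range] at ha
      rw [mul_assoc, h.VU a ha b (by omega), if_neg hab, mul_zero]
    · intro h'
      exact absurd (mem_range.2 (by omega)) h'
  · split_ifs with h0
    · rw [sum_eq_single b]
      · rw [smul_mul_assoc, mul_assoc, h.VU b (by omega) b (by omega), if_pos rfl,
          h.UP _ (by omega)]
      · intro a ha hab
        rw [mem_range] at ha
        rw [smul_mul_assoc, mul_assoc, h.VU a (by omega) b (by omega), if_neg hab, mul_zero,
          smul_zero]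
      · intro h'
        exact absurd (mem_range.2 h0) h'
    · apply sum_eq_zero
      intro a ha
      rw [mem_range] at ha
      rw [smul_mul_assoc, mul_assoc, h.VU a (by omega) b (by omega), if_neg (by omega), mul_zero,
        smul_zero]

lemma rel_bigO {m : ℕ} (h : Cop p P U V (m + 2)) (hPA : P * A = A) (hAP : A * P = A) (δ w : ℝ)
    {S : E →L[ℂ] E} (hS : S * bigO A U V m δ w = bigO A U V m δ w * S) :
    ∀ a ≤ m + 1, ∀ b ≤ m + 1, A * (V a * S * U b) - (V a * S * U b) * A =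
      (if b < m + 1 then wt m δ w b • (V a * S * U (b + 1)) else 0) -
        (if 0 < a then wt m δ w (a - 1) • (V (a - 1) * S * U b) else 0) := by
  intro a ha b hb
  have h1 : V a * S * (bigO A U V m δ w * U b) = V a * bigO A U V m δ w * S * U b := by
    rw [← mul_assoc, mul_assoc (V a) S, hS, ← mul_assoc]
  rw [V_bigO h hPA δ w ha, bigO_U h hAP δ w hb, mul_add, add_mul, add_mul] at h1
  have h2 : V a * S * (if b < m + 1 then wt m δ w b • U (b + 1) else 0) =
      if b < m + 1 then wt m δ w b • (V a * S * U (b + 1)) else 0 := by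
    split_ifs
    · rw [mul_smul_comm]
    · rw [mul_zero]
  have h3 : (if 0 < a then wt m δ w (a - 1) • V (a - 1) else 0) * S * U b =
      if 0 < a then wt m δ w (a - 1) • (V (a - 1) * S * U b) else 0 := by
    split_ifs
    · rw [smul_mul_assoc, smul_mul_assoc]
    · rw [zero_mul, zero_mul]
  rw [h2, h3] at h1
  have h4 : V a * S * (U b * A) = V a * S * U b * A := by rw [mul_assoc, mul_assoc, mul_assoc]
  have h5 : A * V a * S * U b = A * (V a * S * U b) := by rw [mul_assoc, mul_assoc, mul_assoc]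
  rw [h4, h5] at h1
  have h6 : A * (V a * S * U b) = V a * S * U b * A +
      (if b < m + 1 then wt m δ w b • (V a * S * U (b + 1)) else 0) -
      (if 0 < a then wt m δ w (a - 1) • (V (a - 1) * S * U b) else 0) := by
    rw [h1]
    abel
  rw [h6]
  abel

lemma norm_blk_le {m : ℕ} (h : Cop p P U V (m + 2)) (hp : 0 < p) {S : E →L[ℂ] E} (hS : ‖S‖ ≤ 1)
    {a b : ℕ} (ha : a ≤ m + 1) (hb : b ≤ m + 1) : ‖V a * S * U b‖ ≤ 1 := by
  refine (norm_mul_le _ _).trans ?_
  have h1 : ‖V a * S‖ ≤ 1 := (norm_mul_le _ _).trans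
    (mul_le_one₀ (h.norm_V' hp (by omega)) (norm_nonneg _) hS)
  exact mul_le_one₀ h1 (norm_nonneg _) (h.norm_U' hp (by omega))

/-- **The coupled copies kill the pair of vectors.** -/
theorem bigO_HC {m : ℕ} (h : Cop p P U V (m + 2)) (hp : 0 < p) (hPA : P * A = A)
    (hAP : A * P = A) {χ : ℂ[X]} (hχ : aeval A χ = 0) (hs : χ.Separable) {u : ℕ → E}
    {f : ℕ → StrongDual ℂ E} {η : ℝ}
    (hrep : ∀ R : E →L[ℂ] E, R * A = A * R → ‖R‖ ≤ 1 →
      ‖∑ a ∈ range (m + 1), f a (R (u a))‖ ≤ η) {δ w : ℝ} (hδ : 0 < δ) (hw : 0 < w)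
    (hsm : δ / w * ((∑ a ∈ range (m + 1), ‖f a‖) * ∑ b ∈ range (m + 1), ‖u b‖) ≤ η) :
    HC (bigO A U V m δ w) (∑ b ∈ range (m + 1), U b (u b))
      (∑ a ∈ range (m + 1), (f a).comp (V a)) (2 * η) := by
  intro S hS hS1
  obtain ⟨h1, h2, h3⟩ := block_toeplitz hχ hs m hδ hw (fun a b => V a * S * U b)
    (rel_bigO h hPA hAP δ w hS)
  have e1 : (∑ a ∈ range (m + 1), (f a).comp (V a)) (S (∑ b ∈ range (m + 1), U b (u b))) =
      ∑ a ∈ range (m + 1), ∑ b ∈ range (m + 1), f a ((V a * S * U b) (u b)) := by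
    rw [_root_.sum_apply]
    refine sum_congr rfl fun a _ => ?_
    rw [ContinuousLinearMap.comp_apply, map_sum, map_sum, map_sum]
    rfl
  have e2 : ∑ a ∈ range (m + 1), ∑ b ∈ range (m + 1), f a ((V a * S * U b) (u b)) =
      ∑ a ∈ range (m + 1), f a ((V 0 * S * U 0) (u a)) +
      ∑ a ∈ range (m + 1), ∑ b ∈ range (m + 1),
        if a = b then 0 else f a ((V a * S * U b) (u b)) := by
    rw [← sum_add_distrib]
    refine sum_congr rfl fun a ha => ?_
    rw [mem_range] at ha
    have e3 : ∑ b ∈ range (m + 1), f a ((V a * S * U b) (u b)) =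
        ∑ b ∈ range (m + 1), ((if a = b then f a ((V a * S * U a) (u a)) else 0) +
          if a = b then 0 else f a ((V a * S * U b) (u b))) := by
      refine sum_congr rfl fun b _ => ?_
      split_ifs with hab
      · rw [hab, add_zero]
      · rw [zero_add]
    rw [e3, sum_add_distrib, sum_ite_eq, if_pos (mem_range.2 ha)]
    congr 1
    have h4 := h2 a (by omega)
    beta_reduce at h4
    rw [h4]
  have h5 : ‖∑ a ∈ range (m + 1), f a ((V 0 * S * U 0) (u a))‖ ≤ η :=
    hrep _ h1.symm (norm_blk_le h hp hS1 (by omega) (by omega))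
  have h6 : ‖∑ a ∈ range (m + 1), ∑ b ∈ range (m + 1),
      if a = b then 0 else f a ((V a * S * U b) (u b))‖ ≤ η := by
    refine le_trans ?_ hsm
    rw [sum_mul_sum, mul_sum]
    refine (norm_sum_le _ _).trans (sum_le_sum fun a ha => ?_)
    rw [mul_sum]
    refine (norm_sum_le _ _).trans (sum_le_sum fun b hb => ?_)
    rw [mem_range] at ha hb
    have hnn : 0 ≤ δ / w * (‖f a‖ * ‖u b‖) := by positivity
    split_ifs with hab
    · rw [norm_zero]
      exact hnn
    · obtain ⟨a', ha', b', hb', c, hc, hcc⟩ := h3 a (by omega) b (by omega) hab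
      beta_reduce at hcc
      rw [hcc, _root_.smul_apply, map_smul, norm_smul]
      refine mul_le_mul hc ?_ (norm_nonneg _) (by positivity)
      refine ((f a).le_opNorm _).trans (mul_le_mul_of_nonneg_left ?_ (norm_nonneg _))
      refine (ContinuousLinearMap.le_opNorm _ _).trans ?_
      exact mul_le_of_le_one_left (norm_nonneg _) (norm_blk_le h hp hS1 ha' hb')
  rw [e1, e2]
  refine (norm_add_le _ _).trans ?_
  linarith

end

end Run7.h667.TC
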