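import Pool.Agent.Run7.h667.TC.Step2
import Pool.Agent.Y280.Dis

/-!
# The spaces `ℓ_p(Y)` have room
-/

set_option autoImplicit false
open Finset Filter Topology
open scoped ENNReal
open Pool.Agent.Y280

namespace Run7.h667.TC

section

variable {Y : Type*} [NormedAddCommGroup Y] [NormedSpace ℂ Y]
variable {P : ℝ≥0∞} [hP : Fact (1 ≤ P)]

/-- `ℓ_P(Y)`. -/
abbrev LV (Y : Type*) [NormedAddCommGroup Y] (P : ℝ≥0∞) := lp (fun _ : ℕ => Y) P

omit [NormedSpace ℂ Y] in
lemma reidx_sum_le (hPt : P ≠ ∞) (S : ℕ → Prop) [DecidablePred S] (τ : ℕ → ℕ)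
    (h : ∀ i j, S i → S j → τ i = τ j → i = j) (x : LV Y P) (s : Finset ℕ) :
    ∑ i ∈ s, ‖if S i then x (τ i) else 0‖ ^ P.toReal ≤ ‖x‖ ^ P.toReal := by
  have hp : 0 < P.toReal := ENNReal.toReal_pos (zero_lt_one.trans_le hP.out).ne' hPt
  classical
  have e1 : ∑ i ∈ s, ‖if S i then x (τ i) else 0‖ ^ P.toReal =
      ∑ i ∈ s.filter S, ‖x (τ i)‖ ^ P.toReal := by
    rw [sum_filter]
    refine sum_congr rfl fun i _ => ?_
    split_ifs
    · rfl
    · rw [norm_zero, Real.zero_rpow hp.ne']
  have e2 : ∑ i ∈ s.filter S, ‖x (τ i)‖ ^ P.toReal =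
      ∑ j ∈ (s.filter S).image τ, ‖x j‖ ^ P.toReal := by
    rw [sum_image]
    intro i hi j hj hij
    exact h i j (mem_filter.1 hi).2 (mem_filter.1 hj).2 hij
  rw [e1, e2]
  exact lp.sum_rpow_le_norm_rpow hp x _

/-- rearrangement of coordinates -/
noncomputable def reidx (Y : Type*) [NormedAddCommGroup Y] [NormedSpace ℂ Y] {P : ℝ≥0∞}
    [hP : Fact (1 ≤ P)] (hPt : P ≠ ∞) (S : ℕ → Prop) [DecidablePred S] (τ : ℕ → ℕ)
    (h : ∀ i j, S i → S j → τ i = τ j → i = j) : LV Y P →L[ℂ] LV Y P :=
  LinearMap.mkContinuous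
    { toFun := fun x => ⟨fun i => if S i then x (τ i) else 0,
        memℓp_gen' (C := ‖x‖ ^ P.toReal) fun s => reidx_sum_le hPt S τ h x s⟩
      map_add' := fun x y => by
        ext i
        simp only [lp.coeFn_add, Pi.add_apply]
        split_ifs <;> simp
      map_smul' := fun c x => by
        ext i
        simp only [lp.coeFn_smul, Pi.smul_apply, RingHom.id_apply]
        split_ifs <;> simp } 1 fun x => by
      rw [one_mul]
      have hp : 0 < P.toReal := ENNReal.toReal_pos (zero_lt_one.trans_le hP.out).ne' hPt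
      exact lp.norm_le_of_forall_sum_le hp (norm_nonneg _) fun s => reidx_sum_le hPt S τ h x s

lemma reidx_apply (hPt : P ≠ ∞) (S : ℕ → Prop) [DecidablePred S] (τ : ℕ → ℕ)
    (h : ∀ i j, S i → S j → τ i = τ j → i = j) (x : LV Y P) (i : ℕ) :
    reidx Y hPt S τ h x i = if S i then x (τ i) else 0 := rfl

lemma reidx_norm (hPt : P ≠ ∞) (S : ℕ → Prop) [DecidablePred S] (τ : ℕ → ℕ)
    (h : ∀ i j, S i → S j → τ i = τ j → i = j) : ‖reidx Y hPt S τ h‖ ≤ 1 :=
  LinearMap.mkContinuous_norm_le _ zero_le_one _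

/-- the tail projection -/
noncomputable def QV (Y : Type*) [NormedAddCommGroup Y] [NormedSpace ℂ Y] {P : ℝ≥0∞}
    [hP : Fact (1 ≤ P)] (hPt : P ≠ ∞) (k : ℕ) : LV Y P →L[ℂ] LV Y P :=
  reidx Y hPt (fun i => k ≤ i) id fun _ _ _ _ h => h

/-- the head projection -/
noncomputable def PV (Y : Type*) [NormedAddCommGroup Y] [NormedSpace ℂ Y] {P : ℝ≥0∞}
    [hP : Fact (1 ≤ P)] (hPt : P ≠ ∞) (n : ℕ) : LV Y P →L[ℂ] LV Y P :=
  reidx Y hPt (fun i => i < n) id fun _ _ _ _ h => h

lemma QV_apply (hPt : P ≠ ∞) (k : ℕ) (x : LV Y P) (i : ℕ) :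
    QV Y hPt k x i = if k ≤ i then x i else 0 := rfl

lemma PV_apply (hPt : P ≠ ∞) (k : ℕ) (x : LV Y P) (i : ℕ) :
    PV Y hPt k x i = if i < k then x i else 0 := rfl

lemma PV_sub (hPt : P ≠ ∞) (k : ℕ) (x : LV Y P) : PV Y hPt k x - x = - QV Y hPt k x := by
  ext i
  rw [lp.coeFn_sub, Pi.sub_apply, lp.coeFn_neg, Pi.neg_apply, PV_apply, QV_apply]
  by_cases h : k ≤ i
  · rw [if_neg (by omega), if_pos h, zero_sub]
  · rw [if_pos (by omega), if_neg h, sub_self, neg_zero]

lemma QV_tendsto (hPt : P ≠ ∞) (x : LV Y P) : Tendsto (fun k => QV Y hPt k x) atTop (𝓝 0) := by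
  have h1 := (lp.hasSum_single hPt x).tendsto_sum_nat
  have h2 := h1.const_sub x
  rw [sub_self] at h2
  refine h2.congr fun k => ?_
  ext j
  rw [lp.coeFn_sub, Pi.sub_apply, QV_apply, lp.coeFn_sum]
  simp only [Finset.sum_apply, lp.single_apply]
  by_cases h : j < k
  · rw [if_neg (by omega), sum_eq_single j]
    · simp
    · intro b _ hb
      exact Pi.single_eq_of_ne hb.symm _
    · intro h'
      exact absurd (mem_range.2 h) h'
  · rw [if_pos (by omega), sum_eq_zero]
    · simp
    · intro b hb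
      rw [mem_range] at hb
      exact Pi.single_eq_of_ne (by omega) _

omit [NormedSpace ℂ Y] in
/-- sums of functions with disjoint supports -/
lemma norm_sum_dis (hPt : P ≠ ∞) (J : ℕ) (g : ℕ → LV Y P)
    (hg : ∀ a, ∀ i < J, ∀ j < J, g i a ≠ 0 → g j a ≠ 0 → i = j) :
    ‖∑ j ∈ range J, g j‖ ^ P.toReal ≤ ∑ j ∈ range J, ‖g j‖ ^ P.toReal := by
  have hp : 0 < P.toReal := ENNReal.toReal_pos (zero_lt_one.trans_le hP.out).ne' hPt
  set S := ∑ j ∈ range J, g j with hS
  have hpt : ∀ i, ‖S i‖ ^ P.toReal ≤ ∑ j ∈ range J, ‖g j i‖ ^ P.toReal := by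
    intro a
    have e : S a = ∑ j ∈ range J, g j a := by
      rw [hS, lp.coeFn_sum, Finset.sum_apply]
    rw [e]
    by_cases hex : ∃ j ∈ range J, g j a ≠ 0
    · obtain ⟨j, hj, hj'⟩ := hex
      rw [sum_eq_single j]
      · exact single_le_sum (f := fun j => ‖g j a‖ ^ P.toReal) (fun _ _ => by positivity) hj
      · intro b hb hbj
        by_contra hb0
        exact hbj (hg a b (mem_range.1 hb) j (mem_range.1 hj) hb0 hj')
      · intro h
        exact absurd hj h
    · push Not at hex
      rw [sum_eq_zero hex, norm_zero, Real.zero_rpow hp.ne']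
      exact sum_nonneg fun _ _ => by positivity
  rw [lp.norm_rpow_eq_tsum hp]
  have hsum : ∀ j, Summable fun i => ‖g j i‖ ^ P.toReal := fun j => (lp.memℓp (g j)).summable hp
  calc ∑' i, ‖S i‖ ^ P.toReal ≤ ∑' i, ∑ j ∈ range J, ‖g j i‖ ^ P.toReal :=
        Summable.tsum_le_tsum hpt ((lp.memℓp S).summable hp) (summable_sum fun j _ => hsum j)
    _ = ∑ j ∈ range J, ‖g j‖ ^ P.toReal := by
        rw [Summable.tsum_finsetSum fun j _ => hsum j]
        exact sum_congr rfl fun j _ => (lp.norm_rpow_eq_tsum hp (g j)).symm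

lemma norm_le_of_norm_one {E : Type*} [NormedAddCommGroup E] [NormedSpace ℂ E] {T : E →L[ℂ] E}
    (hT : ‖T‖ ≤ 1) (x : E) : ‖T x‖ ≤ ‖x‖ :=
  (T.le_opNorm x).trans (mul_le_of_le_one_left (norm_nonneg _) hT)

lemma norm_QV_dis (hPt : P ≠ ∞) (K : ℕ → ℕ) (hK : StrictMono K) (f : ℕ → LV Y P)
    (J : ℕ) : ‖∑ j ∈ range J, (QV Y hPt (K j) - QV Y hPt (K (j + 1))) (f j)‖ ^ P.toReal ≤
      ∑ j ∈ range J, ‖f j‖ ^ P.toReal := by
  have hp : 0 < P.toReal := ENNReal.toReal_pos (zero_lt_one.trans_le hP.out).ne' hPt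
  have e : ∀ j a, (QV Y hPt (K j) - QV Y hPt (K (j + 1))) (f j) a =
      if K j ≤ a ∧ a < K (j + 1) then f j a else 0 := by
    intro j a
    rw [_root_.sub_apply, lp.coeFn_sub, Pi.sub_apply, QV_apply, QV_apply]
    have := hK (Nat.lt_succ_self j)
    by_cases h1 : K j ≤ a
    · by_cases h2 : a < K (j + 1)
      · rw [if_pos h1, if_neg (by omega), if_pos ⟨h1, h2⟩, sub_zero]
      · rw [if_pos h1, if_pos (by omega), if_neg (by tauto), sub_self]
    · rw [if_neg h1, if_neg (by simp only [Nat.succ_eq_add_one] at this; omega),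
        if_neg (by tauto), sub_zero]
  refine (norm_sum_dis hPt J _ ?_).trans (sum_le_sum fun j _ => ?_)
  · intro a i _ j _ hi hj
    rw [e] at hi hj
    have hi' : K i ≤ a ∧ a < K (i + 1) := by
      by_contra h
      exact hi (if_neg h)
    have hj' : K j ≤ a ∧ a < K (j + 1) := by
      by_contra h
      exact hj (if_neg h)
    by_contra hb
    rcases lt_or_gt_of_ne hb with h | h
    · have := hK.monotone (Nat.succ_le_of_lt h)
      simp only [Nat.succ_eq_add_one] at this
      omega
    · have := hK.monotone (Nat.succ_le_of_lt h)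
      simp only [Nat.succ_eq_add_one] at this
      omega
  · refine Real.rpow_le_rpow (norm_nonneg _) ?_ hp.le
    refine lp.norm_mono (zero_lt_one.trans_le hP.out).ne' fun a => ?_
    rw [e]
    split_ifs <;> simp

lemma comp_QV_tendsto (hP1 : 1 < P) (hPt : P ≠ ∞) (y : StrongDual ℂ (LV Y P)) :
    Tendsto (fun k => y.comp (QV Y hPt k)) atTop (𝓝 0) := by
  have hp1 : 1 < P.toReal := by
    rw [← ENNReal.toReal_one]
    exact (ENNReal.toReal_lt_toReal ENNReal.one_ne_top hPt).2 hP1
  exact comp_tendsto_of_disjoint hp1 (QV Y hPt) (QV_tendsto hPt) (norm_QV_dis hPt) y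

/-- the offset of a block -/
def off (n k i : ℕ) : ℕ := if i = 0 then 0 else k + i * n

/-- push the first block to the block number `i` -/
noncomputable def UV (Y : Type*) [NormedAddCommGroup Y] [NormedSpace ℂ Y] {P : ℝ≥0∞}
    [hP : Fact (1 ≤ P)] (hPt : P ≠ ∞) (n k i : ℕ) : LV Y P →L[ℂ] LV Y P :=
  reidx Y hPt (fun a => off n k i ≤ a ∧ a < off n k i + n) (fun a => a - off n k i)
    fun a b ha hb h => by omega

/-- pull the block number `i` to the first block -/
noncomputable def VV (Y : Type*) [NormedAddCommGroup Y] [NormedSpace ℂ Y] {P : ℝ≥0∞}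
    [hP : Fact (1 ≤ P)] (hPt : P ≠ ∞) (n k i : ℕ) : LV Y P →L[ℂ] LV Y P :=
  reidx Y hPt (fun a => a < n) (fun a => off n k i + a)
    fun a b ha hb h => by omega

lemma UV_apply (hPt : P ≠ ∞) (n k i : ℕ) (x : LV Y P) (a : ℕ) :
    UV Y hPt n k i x a = if off n k i ≤ a ∧ a < off n k i + n then x (a - off n k i) else 0 := rfl

lemma VV_apply (hPt : P ≠ ∞) (n k i : ℕ) (x : LV Y P) (a : ℕ) :
    VV Y hPt n k i x a = if a < n then x (off n k i + a) else 0 := rfl

lemma off_sep {n k i j : ℕ} (h : i ≠ j) : off n k i + n ≤ off n k j ∨ off n k j + n ≤ off n k i := by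
  unfold off
  rcases lt_or_gt_of_ne h with h | h
  · left
    have h1 : i + 1 ≤ j := h
    have h2 : (i + 1) * n ≤ j * n := Nat.mul_le_mul_right n h1
    rw [add_mul, one_mul] at h2
    rw [if_neg (show j ≠ 0 by omega)]
    split_ifs with h0
    · subst h0; omega
    · omega
  · right
    have h1 : j + 1 ≤ i := h
    have h2 : (j + 1) * n ≤ i * n := Nat.mul_le_mul_right n h1
    rw [add_mul, one_mul] at h2
    rw [if_neg (show i ≠ 0 by omega)]
    split_ifs with h0
    · subst h0; omega
    · omega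

lemma cop_LV (hPt : P ≠ ∞) (n k N : ℕ) :
    Cop P.toReal (PV Y hPt n) (UV Y (P := P) hPt n k) (VV Y hPt n k) N := by
  have hp : 0 < P.toReal := ENNReal.toReal_pos (zero_lt_one.trans_le hP.out).ne' hPt
  have hoff0 : off n k 0 = 0 := if_pos rfl
  refine ⟨?_, ?_, ?_, ?_, ?_, ?_, ?_, ?_⟩
  · ext x a
    rw [UV_apply, PV_apply, hoff0]
    simp
  · ext x a
    rw [VV_apply, PV_apply, hoff0]
    simp
  · ext x a
    have : ((PV Y hPt n * PV Y hPt n) x) a = PV Y hPt n (PV Y hPt n x) a := rfl
    rw [this, PV_apply, PV_apply]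
    split_ifs <;> rfl
  · intro i _ j _
    ext x a
    have e1 : ((VV Y hPt n k i * UV Y hPt n k j) x) a = VV Y hPt n k i (UV Y hPt n k j x) a := rfl
    rw [e1, VV_apply, UV_apply]
    by_cases hij : i = j
    · subst hij
      rw [if_pos rfl, PV_apply]
      by_cases ha : a < n
      · rw [if_pos ha, if_pos ha, if_pos ⟨by omega, by omega⟩, Nat.add_sub_cancel_left]
      · rw [if_neg ha, if_neg ha]
    · rw [if_neg hij]
      have hs := off_sep (n := n) (k := k) hij
      have e2 : ((0 : LV Y P →L[ℂ] LV Y P) x) a = 0 := rfl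
      rw [e2]
      by_cases ha : a < n
      · rw [if_pos ha, if_neg (by omega)]
      · rw [if_neg ha]
  · intro i _
    ext x a
    have : ((PV Y hPt n * VV Y hPt n k i) x) a = PV Y hPt n (VV Y hPt n k i x) a := rfl
    rw [this, PV_apply, VV_apply]
    split_ifs <;> rfl
  · intro i _
    ext x a
    have : ((UV Y hPt n k i * PV Y hPt n) x) a = UV Y hPt n k i (PV Y hPt n x) a := rfl
    rw [this, UV_apply, UV_apply, PV_apply]
    by_cases ha : off n k i ≤ a ∧ a < off n k i + n
    · rw [if_pos ha, if_pos ha, if_pos (by omega)]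
    · rw [if_neg ha, if_neg ha]
  · intro z
    refine (norm_sum_dis hPt N _ ?_).trans (sum_le_sum fun j _ => ?_)
    · intro a i _ j _ hi hj
      rw [UV_apply] at hi hj
      have hi' : off n k i ≤ a ∧ a < off n k i + n := by
        by_contra h
        exact hi (if_neg h)
      have hj' : off n k j ≤ a ∧ a < off n k j + n := by
        by_contra h
        exact hj (if_neg h)
      by_contra hb
      have hs := off_sep (n := n) (k := k) hb
      omega
    · exact Real.rpow_le_rpow (norm_nonneg _) (norm_le_of_norm_one (reidx_norm _ _ _ _) _) hp.le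
  · intro x
    have h1 : ∀ i, ‖VV Y hPt n k i x‖ ^ P.toReal ≤
        ∑ a ∈ range n, ‖x (off n k i + a)‖ ^ P.toReal := by
      intro i
      have e1 : VV Y hPt n k i x = ∑ a ∈ range n, lp.single P a (x (off n k i + a)) := by
        ext a
        rw [VV_apply, lp.coeFn_sum]
        simp only [Finset.sum_apply, lp.single_apply]
        by_cases ha : a < n
        · rw [if_pos ha, sum_eq_single a]
          · simp
          · intro b _ hb
            exact Pi.single_eq_of_ne hb.symm _
          · intro h'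
            exact absurd (mem_range.2 ha) h'
        · rw [if_neg ha, sum_eq_zero]
          intro b hb
          rw [mem_range] at hb
          exact Pi.single_eq_of_ne (by omega) _
      rw [e1]
      exact le_of_eq (lp.norm_sum_single (E := fun _ : ℕ => Y) hp
        (fun a => x (off n k i + a)) (range n))
    refine (sum_le_sum fun i _ => h1 i).trans ?_
    rw [← sum_product' (range N) (range n) fun i a => ‖x (off n k i + a)‖ ^ P.toReal]
    have hinj : Set.InjOn (fun v : ℕ × ℕ => off n k v.1 + v.2) (range N ×ˢ range n : Finset (ℕ × ℕ)) := by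
      rintro ⟨i, a⟩ hia ⟨j, b⟩ hjb hab
      simp only [coe_product, Set.mem_prod, mem_coe, mem_range] at hia hjb
      have hab' : off n k i + a = off n k j + b := hab
      by_cases hij : i = j
      · subst hij
        have h3 : a = b := by omega
        rw [h3]
      · exfalso
        have h4 := off_sep (n := n) (k := k) hij
        omega
    have e2 := sum_image (f := fun b : ℕ => ‖x b‖ ^ P.toReal) hinj
    simp only at e2
    rw [← e2]
    exact lp.sum_rpow_le_norm_rpow hp x _

lemma VV_QV (hPt : P ≠ ∞) (n k i : ℕ) (hi : 0 < i) (x : LV Y P) :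
    VV Y hPt n k i x = VV Y hPt n k i (QV Y hPt k x) := by
  ext a
  rw [VV_apply, VV_apply, QV_apply, if_pos (show k ≤ off n k i + a by
    unfold off; rw [if_neg hi.ne']; nlinarith [Nat.zero_le (i * n)])]

lemma UV_QV (hPt : P ≠ ∞) (n k i : ℕ) (hi : 0 < i) :
    UV Y (P := P) hPt n k i = (QV Y hPt k).comp (UV Y hPt n k i) := by
  ext x a
  rw [ContinuousLinearMap.comp_apply, QV_apply, UV_apply]
  by_cases hk : k ≤ a
  · rw [if_pos hk]
  · rw [if_neg hk, if_neg]
    intro h
    have : k ≤ off n k i := by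
      unfold off; rw [if_neg hi.ne']; exact Nat.le_add_right _ _
    omega

/-- **`ℓ_p(Y)` has room.** -/
theorem room_LV (hP1 : 1 < P) (hPt : P ≠ ∞) : Room P.toReal (LV Y P) := by
  intro X Y' ε hε
  have hX : ∀ᶠ k in atTop, ∀ x ∈ X, ‖QV Y hPt k x‖ ≤ ε := by
    rw [Filter.eventually_all_finset]
    intro x _
    have := (tendsto_zero_iff_norm_tendsto_zero.1 (QV_tendsto hPt x)).eventually (gt_mem_nhds hε)
    exact this.mono fun _ h => h.le
  have hY : ∀ᶠ k in atTop, ∀ y ∈ Y', ‖y.comp (QV Y hPt k)‖ ≤ ε := by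
    rw [Filter.eventually_all_finset]
    intro y _
    have := (tendsto_zero_iff_norm_tendsto_zero.1 (comp_QV_tendsto hP1 hPt y)).eventually
      (gt_mem_nhds hε)
    exact this.mono fun _ h => h.le
  obtain ⟨n, hn1, hn2⟩ := (hX.and hY).exists
  refine ⟨PV Y hPt n, (cop_LV hPt n 0 0).PP, reidx_norm _ _ _ _, ?_, ?_, ?_⟩
  · intro x hx
    rw [PV_sub, norm_neg]
    exact hn1 x hx
  · intro y hy
    have e : y.comp (PV Y hPt n) - y = - y.comp (QV Y hPt n) := by
      ext x
      rw [_root_.sub_apply, ContinuousLinearMap.comp_apply, ← map_sub, PV_sub, map_neg]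
      rfl
    rw [e, norm_neg]
    exact hn2 y hy
  · intro N X' Y'' ε' hε'
    have hX : ∀ᶠ k in atTop, ∀ x ∈ X', ‖QV Y hPt k x‖ ≤ ε' := by
      rw [Filter.eventually_all_finset]
      intro x _
      have := (tendsto_zero_iff_norm_tendsto_zero.1 (QV_tendsto hPt x)).eventually
        (gt_mem_nhds hε')
      exact this.mono fun _ h => h.le
    have hY : ∀ᶠ k in atTop, ∀ y ∈ Y'', ‖y.comp (QV Y hPt k)‖ ≤ ε' := by
      rw [Filter.eventually_all_finset]
      intro y _
      have := (tendsto_zero_iff_norm_tendsto_zero.1 (comp_QV_tendsto hP1 hPt y)).eventually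
        (gt_mem_nhds hε')
      exact this.mono fun _ h => h.le
    obtain ⟨k, hk1, hk2⟩ := (hX.and hY).exists
    refine ⟨UV Y hPt n k, VV Y hPt n k, cop_LV hPt n k (N + 2), fun i _ hi => ⟨?_, ?_⟩⟩
    · intro x hx
      rw [VV_QV hPt n k i hi]
      exact (norm_le_of_norm_one (reidx_norm _ _ _ _) _).trans (hk1 x hx)
    · intro y hy
      rw [UV_QV hPt n k i hi, ← ContinuousLinearMap.comp_assoc]
      refine (ContinuousLinearMap.opNorm_comp_le _ _).trans ?_
      exact (mul_le_of_le_one_right (norm_nonneg _) (reidx_norm _ _ _ _)).trans (hk2 y hy)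

/-- Room is preserved by isometric isomorphisms. -/
theorem Room.transfer {p : ℝ} {E F : Type*} [NormedAddCommGroup E] [NormedSpace ℂ E]
    [NormedAddCommGroup F] [NormedSpace ℂ F] (e : F ≃ₗᵢ[ℂ] E) (h : Room p E) : Room p F := by
  classical
  set ec : F →L[ℂ] E := (e.toContinuousLinearEquiv : F →L[ℂ] E) with hec
  set es : E →L[ℂ] F := (e.symm.toContinuousLinearEquiv : E →L[ℂ] F) with hes
  have hec' : ∀ x, ec x = e x := fun _ => rfl
  have hes' : ∀ x, es x = e.symm x := fun _ => rfl
  have hecn : ‖ec‖ ≤ 1 := ContinuousLinearMap.opNorm_le_bound _ zero_le_one fun x => by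
    rw [one_mul, hec', e.norm_map]
  have hesn : ‖es‖ ≤ 1 := ContinuousLinearMap.opNorm_le_bound _ zero_le_one fun x => by
    rw [one_mul, hes', e.symm.norm_map]
  have hce : ec.comp es = ContinuousLinearMap.id ℂ E := by
    ext x
    show e (e.symm x) = x
    rw [e.apply_symm_apply]
  have hcs : es.comp ec = ContinuousLinearMap.id ℂ F := by
    ext x
    show e.symm (e x) = x
    rw [e.symm_apply_apply]
  set c : (E →L[ℂ] E) → F →L[ℂ] F := fun T => es.comp (T.comp ec) with hc
  have hcmul : ∀ S T, c S * c T = c (S * T) := by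
    intro S T
    ext x
    show es (S (ec (es (T (ec x))))) = es (S (T (ec x)))
    have : ec (es (T (ec x))) = T (ec x) := congrArg (fun G : E →L[ℂ] E => G (T (ec x))) hce
    rw [this]
  have hc0 : c 0 = 0 := by
    ext x
    show es 0 = 0
    exact map_zero _
  have hcnorm : ∀ T, ‖c T‖ ≤ ‖T‖ := by
    intro T
    refine (ContinuousLinearMap.opNorm_comp_le _ _).trans ?_
    refine (mul_le_of_le_one_left (norm_nonneg _) hesn).trans ?_
    exact (ContinuousLinearMap.opNorm_comp_le _ _).trans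
      (mul_le_of_le_one_right (norm_nonneg _) hecn)
  have hcn : ∀ T x, ‖c T x‖ = ‖T (e x)‖ := fun T x => e.symm.norm_map _
  intro X Y ε hε
  obtain ⟨P, hPP, hP1, hPx, hPy, hext⟩ := h (X.image e) (Y.image fun y => y.comp es) ε hε
  refine ⟨c P, by rw [hcmul, hPP], (hcnorm P).trans hP1, ?_, ?_, ?_⟩
  · intro x hx
    have h1 := hPx (e x) (mem_image_of_mem _ hx)
    have e1 : c P x - x = e.symm (P (e x) - e x) := by
      rw [map_sub, e.symm_apply_apply]
      rfl
    rw [e1, e.symm.norm_map]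
    exact h1
  · intro y hy
    have h1 := hPy (y.comp es) (mem_image_of_mem _ hy)
    have e1 : y.comp (c P) - y = ((y.comp es).comp P - y.comp es).comp ec := by
      ext x
      show y (es (P (ec x))) - y x = y (es (P (ec x))) - y (es (ec x))
      have : es (ec x) = x := congrArg (fun G : F →L[ℂ] F => G x) hcs
      rw [this]
    rw [e1]
    refine (ContinuousLinearMap.opNorm_comp_le _ _).trans ?_
    exact (mul_le_of_le_one_right (norm_nonneg _) hecn).trans h1
  · intro N X' Y' ε' hε'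
    obtain ⟨U, V, hCop, hfar⟩ := hext N (X'.image e) (Y'.image fun y => y.comp es) ε' hε'
    refine ⟨fun i => c (U i), fun i => c (V i), ?_, ?_⟩
    · refine ⟨by simp only [hCop.U0], by simp only [hCop.V0], by rw [hcmul, hPP], ?_, ?_, ?_, ?_, ?_⟩
      · intro i hi j hj
        rw [hcmul, hCop.VU i hi j hj]
        split_ifs
        · rfl
        · exact hc0
      · intro i hi
        rw [hcmul, hCop.PV i hi]
      · intro i hi
        rw [hcmul, hCop.UP i hi]
      · intro z
        have h1 := hCop.up fun i => e (z i)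
        have e1 : ∑ i ∈ range (N + 2), c (U i) (z i) =
            e.symm (∑ i ∈ range (N + 2), U i (e (z i))) := by
          rw [map_sum]
          rfl
        rw [e1, e.symm.norm_map]
        refine h1.trans (le_of_eq (sum_congr rfl fun i _ => ?_))
        rw [e.norm_map]
      · intro x
        have h1 := hCop.lo (e x)
        rw [e.norm_map] at h1
        refine le_trans (le_of_eq (sum_congr rfl fun i _ => ?_)) h1
        rw [hcn]
    · intro i hi hi0
      refine ⟨fun x hx => ?_, fun y hy => ?_⟩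
      · rw [hcn]
        exact (hfar i hi hi0).1 _ (mem_image_of_mem _ hx)
      · have h1 := (hfar i hi hi0).2 _ (mem_image_of_mem (fun y : StrongDual ℂ F => y.comp es) hy)
        have e1 : y.comp (c (U i)) = ((y.comp es).comp (U i)).comp ec := rfl
        rw [e1]
        refine (ContinuousLinearMap.opNorm_comp_le _ _).trans ?_
        exact (mul_le_of_le_one_right (norm_nonneg _) hecn).trans h1

end

end Run7.h667.TC
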