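import Pool.Agent.Run7.h667.TC.Typ
import Pool.Agent.Run7.h667.TC.Room
import Pool.Agent.Y280.HLp

/-!
# Typical contractions of `ℓ_p(Y)`: assembly
-/

set_option autoImplicit false
open Finset Filter Topology TopologicalSpace
open scoped ENNReal
open Pool.Agent.Y280

namespace Run7.h667.TC

/-- Hahn–Banach for closed subspaces -/
lemma exists_fun_of_notMem {F : Type*} [NormedAddCommGroup F] [NormedSpace ℂ F]
    (M : Submodule ℂ F) (hM : IsClosed (M : Set F)) {z : F} (hz : z ∉ M) :
    ∃ f : StrongDual ℂ F, (∀ x ∈ M, f x = 0) ∧ f z ≠ 0 := by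
  have := hM
  have h0 : M.mkQ z ≠ 0 := by
    rw [Submodule.mkQ_apply, Ne, Submodule.Quotient.mk_eq_zero]
    exact hz
  obtain ⟨g, hg⟩ := SeparatingDual.exists_ne_zero (R := ℂ) h0
  refine ⟨g.comp M.mkQL, fun x hx => ?_, hg⟩
  have : M.mkQ x = 0 := by
    rw [Submodule.mkQ_apply, Submodule.Quotient.mk_eq_zero]
    exact hx
  show g (M.mkQ x) = 0
  rw [this, map_zero]

/-- A normed space with separable dual is separable. -/
lemma separable_of_dual {F : Type*} [NormedAddCommGroup F] [NormedSpace ℂ F]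
    [SeparableSpace (StrongDual ℂ F)] : SeparableSpace F := by
  classical
  have : Nonempty (StrongDual ℂ F) := ⟨0⟩
  set d := denseSeq (StrongDual ℂ F) with hd
  have hdd : DenseRange d := denseRange_denseSeq _
  have h1 : ∀ n, ∃ x : F, ‖x‖ ≤ 1 ∧ ‖d n‖ / 2 ≤ ‖d n x‖ := by
    intro n
    by_cases h0 : d n = 0
    · exact ⟨0, by simp, by simp [h0]⟩
    · have hn : 0 < ‖d n‖ := norm_pos_iff.2 h0
      by_contra hcon
      push Not at hcon
      have : ‖d n‖ ≤ ‖d n‖ / 2 :=
        ContinuousLinearMap.opNorm_le_of_unit_norm (by positivity) fun x hx =>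
          (hcon x hx.le).le
      linarith
  choose x hx hdx using h1
  apply sep_of_span x
  intro z
  by_contra hz
  obtain ⟨f, hf1, hf2⟩ := exists_fun_of_notMem
    (Submodule.span ℂ (Set.range x)).topologicalClosure
    (Submodule.isClosed_topologicalClosure _) hz
  have hfx : ∀ n, f (x n) = 0 := fun n =>
    hf1 _ (Submodule.le_topologicalClosure _ (Submodule.subset_span ⟨n, rfl⟩))
  have hf0 : 0 < ‖f‖ := norm_pos_iff.2 fun h => hf2 (by rw [h]; rfl)
  obtain ⟨n, hn⟩ := hdd.exists_dist_lt f (show 0 < ‖f‖ / 4 by positivity)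
  rw [dist_eq_norm] at hn
  have h2 : ‖d n (x n)‖ ≤ ‖f - d n‖ := by
    have e : d n (x n) = -((f - d n) (x n)) := by
      rw [_root_.sub_apply, hfx, zero_sub, neg_neg]
    rw [e, norm_neg]
    exact ((f - d n).le_opNorm _).trans (mul_le_of_le_one_right (norm_nonneg _) (hx n))
  have h3 : ‖f‖ ≤ ‖f - d n‖ + ‖d n‖ := by
    have := norm_add_le (f - d n) (d n)
    rwa [sub_add_cancel] at this
  have := hdx n
  linarith

/-- The dual of a separable reflexive space is separable. -/
lemma separable_dual {E : Type*} [NormedAddCommGroup E] [NormedSpace ℂ E] [SeparableSpace E]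
    (hE : Refl E) : SeparableSpace (StrongDual ℂ E) := by
  have h1 : SeparableSpace (StrongDual ℂ (StrongDual ℂ E)) :=
    (Function.Surjective.denseRange hE).separableSpace
      (NormedSpace.inclusionInDoubleDual ℂ E).continuous
  exact separable_of_dual

lemma ball_closed {E : Type*} [NormedAddCommGroup E] [NormedSpace ℂ E] (w : ℕ → E →L[ℂ] E)
    (T0 : E →L[ℂ] E) (hw : ∀ m, w m ∈ {T : E →L[ℂ] E | ‖T‖ ≤ 1})
    (h : ∀ x, Tendsto (fun m => w m x) atTop (𝓝 (T0 x))) :
    T0 ∈ {T : E →L[ℂ] E | ‖T‖ ≤ 1} := by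
  refine ContinuousLinearMap.opNorm_le_bound _ zero_le_one fun x => ?_
  rw [one_mul]
  exact le_of_tendsto (h x).norm (Eventually.of_forall fun m => norm_le_of_norm_one (hw m) x)

/-- **Typical contractions and their commutants.** -/
theorem typ_final {E : Type} [NormedAddCommGroup E] [NormedSpace ℂ E] [CompleteSpace E]
    [SeparableSpace E] [Nontrivial E] {p q : ℝ} (hpq : p.HolderConjugate q) (hE : Refl E)
    (hMA : MAP E) (hRoom : Room p E) (C : Set (E →L[ℂ] E)) (hC : C = {T | ‖T‖ ≤ 1})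
    (t : TopologicalSpace C) (ht : t = SOTStar C) :
    C.Nonempty ∧ @IsCompletelyMetrizableSpace C t ∧ @BaireSpace C t ∧
      {T : C | DenselyHyperinvariant (T : E →L[ℂ] E)} ∈ @residual C t := by
  have := separable_dual hE
  have hcm : @IsCompletelyMetrizableSpace C (sotStar C) := by
    refine cm_sotStar (fun T hT => ?_) ?_
    · rw [hC] at hT
      exact hT
    · rw [hC]
      exact ball_closed
  have hres : {w : C | GoodH (w : E →L[ℂ] E)} ∈ @residual C (sotStar C) := by
    letI : TopologicalSpace C := sotStar C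
    have := fc_of_cm _ hcm
    exact typ_room hpq hE hMA hRoom (ballS_sotStar C hC)
  subst ht
  refine ⟨⟨0, by rw [hC]; simp⟩, hcm, ?_, ?_⟩
  · exact @BaireSpace.of_completelyPseudoMetrizable _ (SOTStar C)
      (@IsCompletelyMetrizableSpace.toIsCompletelyPseudoMetrizableSpace _ (SOTStar C) hcm)
  · exact Filter.mem_of_superset hres fun T hT => hyp_of_goodH hT

/-- the same for spaces isometric to `ℓ_p(Y)` -/
theorem typ_lpY {X : Type} {Y : Type*} [NormedAddCommGroup X] [NormedSpace ℂ X] [CompleteSpace X]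
    [SeparableSpace X] [Nontrivial X] [NormedAddCommGroup Y] [NormedSpace ℂ Y]
    (hX : Refl X) (hMA : MAP X) (P : ℝ≥0∞) (hP1 : 1 < P) (hPt : P ≠ ∞)
    [hP : Fact (1 ≤ P)] (e : X ≃ₗᵢ[ℂ] lp (fun _ : ℕ => Y) P)
    (C : Set (X →L[ℂ] X)) (hC : C = {T | ‖T‖ ≤ 1})
    (t : TopologicalSpace C) (ht : t = SOTStar C) :
    C.Nonempty ∧ @IsCompletelyMetrizableSpace C t ∧ @BaireSpace C t ∧
      {T : C | DenselyHyperinvariant (T : X →L[ℂ] X)} ∈ @residual C t := by
  have hp1 : 1 < P.toReal := by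
    rw [← ENNReal.toReal_one]
    exact (ENNReal.toReal_lt_toReal ENNReal.one_ne_top hPt).2 hP1
  exact typ_final (Real.HolderConjugate.conjExponent hp1) hX hMA
    (Room.transfer e (room_LV hP1 hPt)) C hC t ht

end Run7.h667.TC
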