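import Pool.Agent.Run7.h667.TC.Semi

/-!
# Approximation of the identity by contractions of finite rank on a reflexive space and its dual
-/

set_option autoImplicit false
open Finset Filter Topology
open Pool.Agent.Y280

namespace Run7.h667.TC

variable {E : Type*} [NormedAddCommGroup E] [NormedSpace ℂ E]

/-- operators of finite rank -/
def FinRank (R : E →L[ℂ] E) : Prop := FiniteDimensional ℂ (LinearMap.range (R : E →ₗ[ℂ] E))

/-- the metric approximation property -/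
def MAP (E : Type*) [NormedAddCommGroup E] [NormedSpace ℂ E] : Prop :=
  ∀ (s : Finset E) (ε : ℝ), 0 < ε → ∃ R : E →L[ℂ] E, FinRank R ∧ ‖R‖ ≤ 1 ∧
    ∀ x ∈ s, ‖R x - x‖ ≤ ε

lemma FinRank.add {R S : E →L[ℂ] E} (hR : FinRank R) (hS : FinRank S) : FinRank (R + S) := by
  unfold FinRank at *
  have h : LinearMap.range ((R + S : E →L[ℂ] E) : E →ₗ[ℂ] E) ≤
      LinearMap.range (R : E →ₗ[ℂ] E) ⊔ LinearMap.range (S : E →ₗ[ℂ] E) := by
    rintro _ ⟨x, rfl⟩
    exact Submodule.add_mem_sup ⟨x, rfl⟩ ⟨x, rfl⟩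
  exact Submodule.finiteDimensional_of_le h

lemma FinRank.smul {R : E →L[ℂ] E} (hR : FinRank R) (c : ℂ) : FinRank (c • R) := by
  unfold FinRank at *
  have h : LinearMap.range ((c • R : E →L[ℂ] E) : E →ₗ[ℂ] E) ≤
      LinearMap.range (R : E →ₗ[ℂ] E) := by
    rintro _ ⟨x, rfl⟩
    exact Submodule.smul_mem _ c ⟨x, rfl⟩
  exact Submodule.finiteDimensional_of_le h

lemma FinRank.mul_left {R : E →L[ℂ] E} (hR : FinRank R) (S : E →L[ℂ] E) : FinRank (S * R) := by
  unfold FinRank at *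
  have h : LinearMap.range ((S * R : E →L[ℂ] E) : E →ₗ[ℂ] E) =
      (LinearMap.range (R : E →ₗ[ℂ] E)).map (S : E →ₗ[ℂ] E) := by
    ext z
    simp
  rw [h]
  infer_instance

lemma FinRank.mul_right {R : E →L[ℂ] E} (hR : FinRank R) (S : E →L[ℂ] E) : FinRank (R * S) := by
  unfold FinRank at *
  have h : LinearMap.range ((R * S : E →L[ℂ] E) : E →ₗ[ℂ] E) ≤
      LinearMap.range (R : E →ₗ[ℂ] E) := by
    rintro _ ⟨x, rfl⟩
    exact ⟨S x, rfl⟩
  exact Submodule.finiteDimensional_of_le h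

/-- decomposition of functionals on finite products -/
lemma dec_fun {F : Type*} [NormedAddCommGroup F] [NormedSpace ℂ F] {I J : Type*} [Fintype I]
    [Fintype J] [DecidableEq I] [DecidableEq J] (f : StrongDual ℂ ((I → E) × (J → F))) :
    ∃ (α : I → StrongDual ℂ E) (β : J → StrongDual ℂ F), ∀ (a : I → E) (b : J → F),
      f (a, b) = ∑ i, α i (a i) + ∑ j, β j (b j) := by
  refine ⟨fun i => f.comp ((ContinuousLinearMap.inl ℂ (I → E) (J → F)).comp
    (ContinuousLinearMap.single ℂ (fun _ => E) i)), fun j => f.comp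
    ((ContinuousLinearMap.inr ℂ (I → E) (J → F)).comp
    (ContinuousLinearMap.single ℂ (fun _ => F) j)), fun a b => ?_⟩
  have h1 : (a, b) = ∑ i, ((Pi.single i (a i) : I → E), (0 : J → F)) +
      ∑ j, ((0 : I → E), (Pi.single j (b j) : J → F)) := by
    refine Prod.ext ?_ ?_
    · simp [Prod.fst_sum, Finset.univ_sum_single]
    · simp [Prod.snd_sum, Finset.univ_sum_single]
  conv_lhs => rw [h1]
  rw [map_add, map_sum, map_sum]
  rfl

theorem map_dual (hE : Refl E) (h : MAP E) (X : Finset E) (Y : Finset (StrongDual ℂ E)) {ε : ℝ}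
    (hε : 0 < ε) : ∃ R : E →L[ℂ] E, FinRank R ∧ ‖R‖ ≤ 1 ∧ (∀ x ∈ X, ‖R x - x‖ ≤ ε) ∧
      ∀ y ∈ Y, ‖y.comp R - y‖ ≤ ε := by
  classical
  let pt : (E →L[ℂ] E) → (X → E) × (Y → StrongDual ℂ E) := fun R =>
    (fun x => R x, fun y => (y : StrongDual ℂ E).comp R)
  let K : Set ((X → E) × (Y → StrongDual ℂ E)) := {w | ∃ R : E →L[ℂ] E, FinRank R ∧ ‖R‖ ≤ 1 ∧ w = pt R}
  have hK : Convex ℝ K := by
    rintro _ ⟨R, hR1, hR2, rfl⟩ _ ⟨R', hR1', hR2', rfl⟩ s t hs ht hst
    refine ⟨(s : ℂ) • R + (t : ℂ) • R', (hR1.smul _).add (hR1'.smul _), ?_, ?_⟩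
    · refine (norm_add_le _ _).trans ?_
      rw [norm_smul, norm_smul, Complex.norm_real, Complex.norm_real, Real.norm_of_nonneg hs,
        Real.norm_of_nonneg ht]
      nlinarith
    · refine Prod.ext ?_ ?_
      · ext x
        simp [pt]
      · funext y
        show s • ((y : StrongDual ℂ E).comp R) + t • ((y : StrongDual ℂ E).comp R') =
          (y : StrongDual ℂ E).comp ((s : ℂ) • R + (t : ℂ) • R')
        ext z
        simp
  obtain ⟨_, ⟨R, hR1, hR2, rfl⟩, hR3⟩ := exists_near hK (pt 1) (by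
    intro f s hf hs
    obtain ⟨α, β, hαβ⟩ := dec_fun f
    have h1 : ∀ y : Y, ∃ z : E, ∀ v : StrongDual ℂ E, β y v = v z := by
      intro y
      obtain ⟨z, hz⟩ := hE (β y)
      refine ⟨z, fun v => ?_⟩
      rw [← hz]
      exact NormedSpace.dual_def ℂ E z v
    choose z hz using h1
    have hfR : ∀ R : E →L[ℂ] E, f (pt R) = ∑ x, α x (R x) + ∑ y : Y, (y : StrongDual ℂ E) (R (z y)) := by
      intro R
      rw [hαβ]
      congr 1
      exact sum_congr rfl fun y _ => by rw [hz]; rfl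
    set C : ℝ := ∑ x, ‖α x‖ + ∑ y : Y, ‖(y : StrongDual ℂ E)‖ + 1 with hC
    have hC0 : 0 < C := by positivity
    set ε' : ℝ := (RCLike.re (f (pt 1)) - s) / C with hε'
    have hε'0 : 0 < ε' := div_pos (sub_pos.2 hs) hC0
    obtain ⟨R, hR1, hR2, hR3⟩ := h (X ∪ univ.image z) ε' hε'0
    have h2 := hf (pt R) ⟨R, hR1, hR2, rfl⟩
    have h3 : ‖f (pt R) - f (pt 1)‖ ≤ ε' * (C - 1) := by
      rw [hfR, hfR]
      have e : ∑ x, α x (R x) + ∑ y : Y, (y : StrongDual ℂ E) (R (z y)) -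
          (∑ x, α x ((1 : E →L[ℂ] E) x) + ∑ y : Y, (y : StrongDual ℂ E) ((1 : E →L[ℂ] E) (z y))) =
          ∑ x : X, α x (R x - x) + ∑ y : Y, (y : StrongDual ℂ E) (R (z y) - z y) := by
        simp only [map_sub, sum_sub_distrib, one_apply_eq_self]
        ring
      rw [e]
      have h4 : ‖∑ x : X, α x (R x - x)‖ ≤ ∑ x : X, ‖α x‖ * ε' := by
        refine (norm_sum_le _ _).trans (sum_le_sum fun x _ => ?_)
        refine ((α x).le_opNorm _).trans (mul_le_mul_of_nonneg_left ?_ (norm_nonneg _))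
        exact hR3 x (mem_union_left _ x.2)
      have h5 : ‖∑ y : Y, (y : StrongDual ℂ E) (R (z y) - z y)‖ ≤
          ∑ y : Y, ‖(y : StrongDual ℂ E)‖ * ε' := by
        refine (norm_sum_le _ _).trans (sum_le_sum fun y _ => ?_)
        refine ((y : StrongDual ℂ E).le_opNorm _).trans
          (mul_le_mul_of_nonneg_left ?_ (norm_nonneg _))
        exact hR3 (z y) (mem_union_right _ (mem_image_of_mem _ (mem_univ _)))
      refine (norm_add_le _ _).trans ((add_le_add h4 h5).trans (le_of_eq ?_))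
      rw [← sum_mul, ← sum_mul, hC]
      ring
    have h6 : |RCLike.re (f (pt R)) - RCLike.re (f (pt 1))| ≤ ε' * (C - 1) := by
      rw [← map_sub]
      exact (RCLike.abs_re_le_norm _).trans h3
    have h7 : ε' * C = RCLike.re (f (pt 1)) - s := by
      rw [hε']
      field_simp
    have h8 := (abs_le.1 h6).1
    nlinarith) hε
  have h9 : ‖(pt 1).1 - (pt R).1‖ < ε := lt_of_le_of_lt (norm_fst_le (pt 1 - pt R)) hR3
  have h10 : ‖(pt 1).2 - (pt R).2‖ < ε := lt_of_le_of_lt (norm_snd_le (pt 1 - pt R)) hR3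
  refine ⟨R, hR1, hR2, fun x hx => ?_, fun y hy => ?_⟩
  · have h11 := (norm_le_pi_norm ((pt 1).1 - (pt R).1) ⟨x, hx⟩).trans h9.le
    rw [norm_sub_rev]
    exact h11
  · have h11 := (norm_le_pi_norm ((pt 1).2 - (pt R).2) ⟨y, hy⟩).trans h10.le
    rw [norm_sub_rev]
    exact h11

end Run7.h667.TC
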