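import Pool.Agent.Y280.HTyp

/-!
# Functionals on the commutant of an operator on a reflexive space
-/

set_option autoImplicit false
open Finset Filter Topology
open Pool.Agent.Y280

namespace Run7.h667.TC

variable {E : Type*} [NormedAddCommGroup E] [NormedSpace ℂ E]

/-- the commutant -/
def comm (A : E →L[ℂ] E) : Submodule ℂ (E →L[ℂ] E) where
  carrier := {S | S * A = A * S}
  add_mem' := by
    intro S S' h h'
    simp only [Set.mem_ofPred_eq] at h h' ⊢
    rw [add_mul, mul_add, h, h']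
  zero_mem' := by simp
  smul_mem' := by
    intro c S h
    simp only [Set.mem_ofPred_eq] at h ⊢
    rw [smul_mul_assoc, mul_smul_comm, h]

lemma mem_comm {A S : E →L[ℂ] E} : S ∈ comm A ↔ S * A = A * S := Iff.rfl

lemma sum_scaleN {F : Type*} [NormedAddCommGroup F] [NormedSpace ℂ F] {p s : ℝ} (hp : 0 < p)
    (hs : 0 ≤ s) {L : Type} [Fintype L] (u : L → F) :
    ∑ b, ‖((s ^ (1 / p) : ℝ) : ℂ) • u b‖ ^ p = s * ∑ b, ‖u b‖ ^ p := by
  rw [mul_sum]
  refine sum_congr rfl fun b _ => ?_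
  rw [norm_smul, Complex.norm_real, Real.norm_of_nonneg (by positivity),
    Real.mul_rpow (by positivity) (norm_nonneg _), ← Real.rpow_mul hs, one_div_mul_cancel hp.ne',
    Real.rpow_one]

section fn

variable {G : Type*} [NormedAddCommGroup G] [NormedSpace ℂ G] (j : G →L[ℂ] (E →L[ℂ] E))

/-- the functional `S ↦ v (S u)` on the commutant -/
noncomputable def fn (u : E) (v : StrongDual ℂ E) : StrongDual ℂ G :=
  (v.comp (ContinuousLinearMap.apply ℂ E u)).comp j

lemma fn_apply (u : E) (v : StrongDual ℂ E) (S : G) :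
    fn j u v S = v (j S u) := rfl

lemma fn_add_left (u u' : E) (v : StrongDual ℂ E) :
    fn j (u + u') v = fn j u v + fn j u' v := by
  ext S
  simp [fn_apply]

lemma fn_add_right (u : E) (v v' : StrongDual ℂ E) :
    fn j u (v + v') = fn j u v + fn j u v' := by
  ext S
  simp [fn_apply]

lemma fn_smul_left (c : ℂ) (u : E) (v : StrongDual ℂ E) :
    fn j (c • u) v = c • fn j u v := by
  ext S
  simp [fn_apply]

lemma fn_smul_right (c : ℂ) (u : E) (v : StrongDual ℂ E) :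
    fn j u (c • v) = c • fn j u v := by
  ext S
  simp [fn_apply]

/-- The convex set of the functionals. -/
def CSO (p q : ℝ) : Set (StrongDual ℂ G) :=
  {F | ∃ (L : Type) (_ : Fintype L) (U : L → E) (V : L → StrongDual ℂ E),
    ∑ b, ‖U b‖ ^ p ≤ 1 ∧ ∑ b, ‖V b‖ ^ q ≤ 1 ∧ F = ∑ b, fn j (U b) (V b)}

lemma CSO_convex {p q : ℝ} (hpq : p.HolderConjugate q) :
    Convex ℝ (CSO j p q) := by
  rintro F ⟨L, _, U, V, hU, hV, hF⟩ F' ⟨L', _, U', V', hU', hV', hF'⟩ s t hs ht hst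
  refine ⟨L ⊕ L', inferInstance,
    Sum.elim (fun b => ((s ^ (1 / p) : ℝ) : ℂ) • U b) (fun b => ((t ^ (1 / p) : ℝ) : ℂ) • U' b),
    Sum.elim (fun b => ((s ^ (1 / q) : ℝ) : ℂ) • V b) (fun b => ((t ^ (1 / q) : ℝ) : ℂ) • V' b),
    ?_, ?_, ?_⟩
  · rw [Fintype.sum_sum_type]
    simp only [Sum.elim_inl, Sum.elim_inr]
    rw [sum_scaleN hpq.pos hs, sum_scaleN hpq.pos ht]
    nlinarith
  · rw [Fintype.sum_sum_type]
    simp only [Sum.elim_inl, Sum.elim_inr]
    have e1 := sum_scaleN (F := StrongDual ℂ E) hpq.symm.pos hs V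
    have e2 := sum_scaleN (F := StrongDual ℂ E) hpq.symm.pos ht V'
    calc _ = s * ∑ b, ‖V b‖ ^ q + t * ∑ b, ‖V' b‖ ^ q := congrArg₂ (· + ·) e1 e2
      _ ≤ 1 := by nlinarith
  · rw [Fintype.sum_sum_type]
    simp only [Sum.elim_inl, Sum.elim_inr]
    have e1 : ∀ b, fn j (((s ^ (1 / p) : ℝ) : ℂ) • U b) (((s ^ (1 / q) : ℝ) : ℂ) • V b) =
        (s : ℂ) • fn j (U b) (V b) := by
      intro b
      rw [fn_smul_left, fn_smul_right, smul_smul, scale_mul hpq hs]
    have e2 : ∀ b, fn j (((t ^ (1 / p) : ℝ) : ℂ) • U' b) (((t ^ (1 / q) : ℝ) : ℂ) • V' b) =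
        (t : ℂ) • fn j (U' b) (V' b) := by
      intro b
      rw [fn_smul_left, fn_smul_right, smul_smul, scale_mul hpq ht]
    rw [sum_congr rfl fun b _ => e1 b, sum_congr rfl fun b _ => e2 b, ← smul_sum, ← smul_sum,
      hF, hF']
    rfl

end fn

/-- reflexive spaces -/
def Refl (E : Type*) [NormedAddCommGroup E] [NormedSpace ℂ E] : Prop :=
  Function.Surjective (NormedSpace.inclusionInDoubleDual ℂ E)

/-- Operators from bounded bilinear forms. -/
lemma exists_op (hE : Refl E) (B : E →ₗ[ℂ] StrongDual ℂ E →ₗ[ℂ] ℂ) {C : ℝ} (hC : 0 ≤ C)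
    (hB : ∀ u v, ‖B u v‖ ≤ C * ‖u‖ * ‖v‖) :
    ∃ S : E →L[ℂ] E, ‖S‖ ≤ C ∧ ∀ u v, v (S u) = B u v := by
  have h1 : ∀ u : E, ∃ z : E, ∀ v : StrongDual ℂ E, v z = B u v := by
    intro u
    obtain ⟨z, hz⟩ := hE ((B u).mkContinuous (C * ‖u‖) (hB u))
    refine ⟨z, fun v => ?_⟩
    have h2 := NormedSpace.dual_def ℂ E z v
    rw [← h2, hz]
    rfl
  choose S hS using h1
  have hsep : ∀ a b : E, (∀ v : StrongDual ℂ E, v a = v b) → a = b := by
    intro a b hab
    by_contra hne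
    obtain ⟨g, hg⟩ := SeparatingDual.exists_separating_of_ne (R := ℂ) hne
    exact hg (hab g)
  let S' : E →ₗ[ℂ] E :=
    { toFun := S
      map_add' := by
        intro u u'
        apply hsep
        intro v
        rw [map_add, hS, hS, hS, map_add, LinearMap.add_apply]
      map_smul' := by
        intro c u
        apply hsep
        intro v
        rw [RingHom.id_apply, map_smul, hS, hS, map_smul, LinearMap.smul_apply] }
  have hS' : ∀ u, ‖S' u‖ ≤ C * ‖u‖ := by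
    intro u
    refine NormedSpace.norm_le_dual_bound ℂ _ (by positivity) fun v => ?_
    show ‖v (S u)‖ ≤ _
    rw [hS]
    exact hB u v
  exact ⟨S'.mkContinuous C hS', LinearMap.mkContinuous_norm_le _ hC _, hS⟩

/-- Hahn-Banach. -/
lemma exists_near {V : Type*} [NormedAddCommGroup V] [NormedSpace ℂ V] {K : Set V}
    (hK : Convex ℝ K) (x : V) (h : ∀ (f : StrongDual ℂ V) (s : ℝ),
      (∀ a ∈ K, RCLike.re (f a) < s) → ¬ s < RCLike.re (f x)) {ε : ℝ} (hε : 0 < ε) :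
    ∃ a ∈ K, ‖x - a‖ < ε := by
  have hmem : x ∈ closure K := by
    by_contra hc
    obtain ⟨f, s, hf, hs⟩ := RCLike.geometric_hahn_banach_closed_point (𝕜 := ℂ)
      hK.closure isClosed_closure hc
    exact h f s (fun a ha => hf a (subset_closure ha)) hs
  obtain ⟨a, ha, h1⟩ := Metric.mem_closure_iff.1 hmem ε hε
  exact ⟨a, ha, by rwa [dist_eq_norm] at h1⟩

/-- **Representation of functionals on the commutant.** -/
lemma exists_repG {G : Type*} [NormedAddCommGroup G] [NormedSpace ℂ G]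
    (j : G →L[ℂ] (E →L[ℂ] E)) (hjn : ∀ S, ‖S‖ ≤ ‖j S‖)
    {p q : ℝ} (hpq : p.HolderConjugate q) (hE : Refl E) {A : E →L[ℂ] E}
    (hj1 : ∀ S, j S * A = A * j S) (hj2 : ∀ S : E →L[ℂ] E, S * A = A * S → ∃ R, j R = S)
    {x : E} {y : StrongDual ℂ E} {ρ : ℝ} (hρ : 0 < ρ) (h : HC A x y ρ) {η : ℝ} (hη : 0 < η) :
    ∃ (m : ℕ) (U : Fin m → E) (V : Fin m → StrongDual ℂ E), ∑ b, ‖U b‖ ^ p ≤ ρ ∧
      ∑ b, ‖V b‖ ^ q ≤ ρ ∧
      ∀ S : E →L[ℂ] E, S * A = A * S → ‖S‖ ≤ 1 → ‖y (S x) - ∑ b, V b (S (U b))‖ ≤ η := by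
  classical
  obtain ⟨F, ⟨L, hL, U, V, hU, hV, hF⟩, hdist⟩ := exists_near (CSO_convex j hpq)
    ((ρ : ℂ)⁻¹ • fn j x y) (by
    intro f s hf hs
    have hs0 : 0 < s := by
      have hzero : (0 : StrongDual ℂ G) ∈ CSO j p q :=
        ⟨Empty, inferInstance, fun b => b.elim, fun b => b.elim, by simp, by simp, by simp⟩
      have := hf 0 hzero
      simpa using this
    let B : E →ₗ[ℂ] StrongDual ℂ E →ₗ[ℂ] ℂ := LinearMap.mk₂ ℂ (fun u v => f (fn j u v))
      (fun u u' v => by rw [fn_add_left, map_add])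
      (fun c u v => by rw [fn_smul_left, map_smul])
      (fun u v v' => by rw [fn_add_right, map_add])
      (fun c u v => by rw [fn_smul_right, map_smul])
    have hBdef : ∀ u v, B u v = f (fn j u v) := fun u v => rfl
    have hB1 : ∀ u v, ‖u‖ ≤ 1 → ‖v‖ ≤ 1 → ‖B u v‖ ≤ s := by
      intro u v hu hv
      obtain ⟨θ, hθ, hθ'⟩ : ∃ θ : ℂ, ‖θ‖ = 1 ∧ θ * B u v = (‖B u v‖ : ℂ) := by
        set z := B u v
        by_cases hz : z = 0
        · exact ⟨1, by simp, by simp [hz]⟩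
        · refine ⟨(starRingEnd ℂ) z / ‖z‖, ?_, ?_⟩
          · simp [norm_div, hz]
          · have hz' : (‖z‖ : ℂ) ≠ 0 := by simpa using hz
            rw [div_mul_eq_mul_div, mul_comm, Complex.mul_conj, Complex.normSq_eq_norm_sq]
            push_cast
            field_simp
      have h1 := hf (fn j u (θ • v)) (by
        refine ⟨Unit, inferInstance, fun _ => u, fun _ => θ • v, ?_, ?_, by simp⟩
        · simpa using Real.rpow_le_one (norm_nonneg _) hu hpq.nonneg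
        · have : ‖θ • v‖ ≤ 1 := by rw [norm_smul, hθ, one_mul]; exact hv
          simpa using Real.rpow_le_one (norm_nonneg _) this hpq.symm.nonneg)
      rw [fn_smul_right, map_smul, smul_eq_mul, ← hBdef, hθ'] at h1
      simpa using h1.le
    have hB2 : ∀ u v, ‖B u v‖ ≤ s * ‖u‖ * ‖v‖ := by
      intro u v
      by_cases hu : u = 0
      · simp [hu]
      by_cases hv : v = 0
      · simp [hv]
      have hu' : 0 < ‖u‖ := norm_pos_iff.2 hu
      have hv' : 0 < ‖v‖ := norm_pos_iff.2 hv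
      have h1 := hB1 (((‖u‖⁻¹ : ℝ) : ℂ) • u) (((‖v‖⁻¹ : ℝ) : ℂ) • v)
        (by rw [norm_smul, Complex.norm_real, Real.norm_of_nonneg (by positivity),
              inv_mul_cancel₀ hu'.ne'])
        (by rw [norm_smul, Complex.norm_real, Real.norm_of_nonneg (by positivity),
              inv_mul_cancel₀ hv'.ne'])
      rw [map_smul, map_smul, LinearMap.smul_apply, norm_smul, norm_smul, Complex.norm_real,
        Complex.norm_real, Real.norm_of_nonneg (by positivity),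
        Real.norm_of_nonneg (by positivity)] at h1
      have h2 : ‖B u v‖ = ‖u‖ * ‖v‖ * (‖v‖⁻¹ * (‖u‖⁻¹ * ‖B u v‖)) := by
        field_simp
      rw [h2]
      nlinarith [mul_pos hu' hv']
    obtain ⟨S, hSn, hS⟩ := exists_op hE B hs0.le hB2
    have hSA : S * A = A * S := by
      have h1 : ∀ (u : E) (v : StrongDual ℂ E), v ((S * A) u) = v ((A * S) u) := by
        intro u v
        have h2 : v ((S * A) u) = B (A u) v := hS (A u) v
        have h3 : v ((A * S) u) = B u (v.comp A) := hS u (v.comp A)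
        rw [h2, h3, hBdef, hBdef]
        congr 1
        ext R
        have hR := hj1 R
        have h4 := congrArg (fun T : E →L[ℂ] E => v (T u)) hR
        exact h4
      ext u
      by_contra hne
      obtain ⟨g, hg⟩ := SeparatingDual.exists_separating_of_ne (R := ℂ) hne
      exact hg (h1 u g)
    have h1 : f ((ρ : ℂ)⁻¹ • fn j x y) = (ρ : ℂ)⁻¹ * y (S x) := by
      rw [map_smul, smul_eq_mul, hS x y, hBdef]
    rw [h1] at hs
    have h3 : s < ‖(ρ : ℂ)⁻¹ * y (S x)‖ := hs.trans_le (Complex.re_le_norm _)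
    rw [norm_mul, norm_inv, Complex.norm_real, Real.norm_of_nonneg hρ.le,
      lt_inv_mul_iff₀ hρ] at h3
    have h4 := h ((s : ℂ)⁻¹ • S) (by rw [smul_mul_assoc, mul_smul_comm, hSA]) (by
      rw [norm_smul, norm_inv, Complex.norm_real, Real.norm_of_nonneg hs0.le,
        inv_mul_le_iff₀ hs0]
      linarith)
    rw [_root_.smul_apply, map_smul, smul_eq_mul, norm_mul, norm_inv, Complex.norm_real,
      Real.norm_of_nonneg hs0.le, inv_mul_le_iff₀ hs0] at h4
    linarith) (show 0 < η / ρ by positivity)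
  set e := Fintype.equivFin L with he
  refine ⟨Fintype.card L, fun b => ((ρ ^ (1 / p) : ℝ) : ℂ) • U (e.symm b),
    fun b => ((ρ ^ (1 / q) : ℝ) : ℂ) • V (e.symm b), ?_, ?_, ?_⟩
  · rw [sum_scaleN hpq.pos hρ.le, e.symm.sum_comp (fun b => ‖U b‖ ^ p)]
    nlinarith
  · have e1 := sum_scaleN (F := StrongDual ℂ E) hpq.symm.pos hρ.le (fun b => V (e.symm b))
    refine (le_of_eq e1).trans ?_
    rw [e.symm.sum_comp (fun b => ‖V b‖ ^ q)]
    nlinarith
  · intro S hSA hS
    obtain ⟨R, rfl⟩ := hj2 S hSA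
    have e1 : ∑ b, (((ρ ^ (1 / q) : ℝ) : ℂ) • V (e.symm b))
        (j R (((ρ ^ (1 / p) : ℝ) : ℂ) • U (e.symm b))) = (ρ : ℂ) * ∑ b, V b (j R (U b)) := by
      rw [e.symm.sum_comp (fun b => (((ρ ^ (1 / q) : ℝ) : ℂ) • V b)
        (j R (((ρ ^ (1 / p) : ℝ) : ℂ) • U b))), mul_sum]
      refine sum_congr rfl fun b _ => ?_
      rw [_root_.smul_apply, map_smul, map_smul, smul_eq_mul, smul_eq_mul, ← mul_assoc,
        mul_comm ((ρ ^ (1 / q) : ℝ) : ℂ), scale_mul hpq hρ.le]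
    rw [e1]
    have hρC : (ρ : ℂ) ≠ 0 := by exact_mod_cast hρ.ne'
    have e2 : y (j R x) - (ρ : ℂ) * ∑ b, V b (j R (U b)) =
        (ρ : ℂ) * (((ρ : ℂ)⁻¹ • fn j x y - F) R) := by
      rw [_root_.sub_apply, _root_.smul_apply, fn_apply, hF, _root_.sum_apply, smul_eq_mul,
        mul_sub, ← mul_assoc, mul_inv_cancel₀ hρC, one_mul]
      rfl
    rw [e2, norm_mul, Complex.norm_real, Real.norm_of_nonneg hρ.le]
    have h3 : ‖((ρ : ℂ)⁻¹ • fn j x y - F) R‖ ≤ η / ρ := by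
      refine (ContinuousLinearMap.le_opNorm _ _).trans ?_
      have h4 : ‖R‖ ≤ 1 := (hjn R).trans hS
      calc _ ≤ η / ρ * 1 := mul_le_mul hdist.le h4 (norm_nonneg _) (by positivity)
        _ = η / ρ := mul_one _
    calc ρ * _ ≤ ρ * (η / ρ) := mul_le_mul_of_nonneg_left h3 hρ.le
      _ = η := by field_simp

/-- **Representation of functionals on the commutant.** -/
theorem exists_repO {p q : ℝ} (hpq : p.HolderConjugate q) (hE : Refl E) {A : E →L[ℂ] E}
    {x : E} {y : StrongDual ℂ E} {ρ : ℝ} (hρ : 0 < ρ) (h : HC A x y ρ) {η : ℝ} (hη : 0 < η) :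
    ∃ (m : ℕ) (U : Fin m → E) (V : Fin m → StrongDual ℂ E), ∑ b, ‖U b‖ ^ p ≤ ρ ∧
      ∑ b, ‖V b‖ ^ q ≤ ρ ∧
      ∀ S : E →L[ℂ] E, S * A = A * S → ‖S‖ ≤ 1 → ‖y (S x) - ∑ b, V b (S (U b))‖ ≤ η := by
  refine exists_repG (G := comm A) ((comm A).subtypeL) (fun _ => le_rfl) hpq hE ?_ ?_ hρ h hη
  · intro S
    exact mem_comm.1 S.2
  · intro S hS
    exact ⟨⟨S, hS⟩, rfl⟩

end Run7.h667.TC
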