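import Pool.Agent.Run7.h667.TC.Map

/-!
# Operators of finite rank are limits of semisimple ones
-/

set_option autoImplicit false
open Finset Filter Topology Polynomial
open Pool.Agent.Y280

namespace Run7.h667.TC

lemma separable_comp {f : ℂ[X]} (hf : f.Separable) {s : ℂ} (hs : s ≠ 0) (t : ℂ) :
    (f.comp (C s * (X - C t))).Separable := by
  obtain ⟨a, b, hab⟩ := hf
  refine ⟨a.comp (C s * (X - C t)), b.comp (C s * (X - C t)) * C (s⁻¹), ?_⟩
  have h1 : derivative (f.comp (C s * (X - C t))) = C s * (derivative f).comp (C s * (X - C t)) := by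
    rw [derivative_comp]
    simp
  rw [h1]
  have h2 : C (s⁻¹) * C s = (1 : ℂ[X]) := by rw [← C_mul, inv_mul_cancel₀ hs, C_1]
  calc _ = a.comp (C s * (X - C t)) * f.comp (C s * (X - C t)) +
        b.comp (C s * (X - C t)) * (derivative f).comp (C s * (X - C t)) * (C (s⁻¹) * C s) := by ring
    _ = (a * f + b * derivative f).comp (C s * (X - C t)) := by
        rw [h2, mul_one, add_comp, mul_comp, mul_comp]
    _ = 1 := by rw [hab, one_comp]

lemma ss_end {F : Type*} [AddCommGroup F] [Module ℂ F] [FiniteDimensional ℂ F]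
    (M : Module.End ℂ F) : ∃ D : Module.End ℂ F, ∀ η : ℝ, 0 < η → ∃ a b : ℝ, 0 ≤ a ∧ a ≤ η ∧
      0 ≤ b ∧ b ≤ η ∧ ∃ χ : ℂ[X], (X * χ).Separable ∧
        aeval (M + (a : ℂ) • D + (b : ℂ) • (1 : Module.End ℂ F)) χ = 0 := by
  classical
  let bs := Module.finBasis ℂ F
  let D : Module.End ℂ F := Matrix.toLin bs bs
    (Matrix.diagonal fun i : Fin (Module.finrank ℂ F) => ((i : ℕ) : ℂ))
  refine ⟨D, fun η hη => ?_⟩
  obtain ⟨s, hs, hsep⟩ := exists_large_sep (LinearMap.toMatrix bs bs M) (1 / η)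
  have hs0 : 0 < s := lt_trans (by positivity) hs
  have hsC : (s : ℂ) ≠ 0 := by exact_mod_cast hs0.ne'
  set χ := ((Matrix.diagonal fun i : Fin (Module.finrank ℂ F) => ((i : ℕ) : ℂ)) +
    (s : ℂ) • LinearMap.toMatrix bs bs M).charpoly with hχ
  have hχ2 : (D + (s : ℂ) • M).charpoly = χ := by
    rw [← LinearMap.charpoly_toMatrix _ bs, hχ]
    congr 1
    rw [map_add, map_smul, LinearMap.toMatrix_toLin]
  have hχ0 : χ ≠ 0 := hsep.ne_zero
  -- choice of the shift
  obtain ⟨b, hb0, hbη, hbr⟩ : ∃ b : ℝ, 0 < b ∧ b ≤ η ∧ χ.eval ((s : ℂ) * (0 - (b : ℂ))) ≠ 0 := by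
    by_contra hcon
    push Not at hcon
    have hinf : (Set.Ioc (0 : ℝ) η).Infinite := Set.Ioc_infinite hη
    have hsub : (fun b : ℝ => (s : ℂ) * (0 - (b : ℂ))) '' Set.Ioc (0 : ℝ) η ⊆
        (χ.roots.toFinset : Set ℂ) := by
      rintro _ ⟨b, ⟨hb1, hb2⟩, rfl⟩
      rw [mem_coe, Multiset.mem_toFinset, mem_roots hχ0]
      exact hcon b hb1 hb2
    have hinj : Set.InjOn (fun b : ℝ => (s : ℂ) * (0 - (b : ℂ))) (Set.Ioc (0 : ℝ) η) := by
      intro b _ b' _ hbb
      have h1 := mul_left_cancel₀ hsC hbb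
      have h2 : (b : ℂ) = (b' : ℂ) := by
        have := sub_right_injective h1
        exact this
      exact_mod_cast h2
    exact ((hinf.image hinj).mono hsub) (χ.roots.toFinset.finite_toSet)
  refine ⟨s⁻¹, b, by positivity, ?_, hb0.le, hbη, χ.comp (C (s : ℂ) * (X - C (b : ℂ))), ?_, ?_⟩
  · rw [inv_le_comm₀ hs0 hη]
    rw [one_div] at hs
    exact hs.le
  · have h1 : (χ.comp (C (s : ℂ) * (X - C (b : ℂ)))).Separable := separable_comp hsep hsC _
    refine Polynomial.Separable.mul separable_X h1 ?_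
    rw [irreducible_X.coprime_iff_not_dvd, X_dvd_iff, coeff_zero_eq_eval_zero, eval_comp]
    simpa using hbr
  · rw [aeval_comp]
    have h1 : (aeval (M + ((s⁻¹ : ℝ) : ℂ) • D + (b : ℂ) • (1 : Module.End ℂ F)))
        (C (s : ℂ) * (X - C (b : ℂ))) = D + (s : ℂ) • M := by
      rw [map_mul, map_sub, aeval_C, aeval_C, aeval_X]
      rw [Algebra.algebraMap_eq_smul_one, Algebra.algebraMap_eq_smul_one, smul_mul_assoc, one_mul,
        add_sub_cancel_right, smul_add, smul_smul]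
      push_cast
      rw [mul_inv_cancel₀ hsC, one_smul, add_comm]
    rw [h1, ← hχ2]
    exact LinearMap.aeval_self_charpoly _

variable {E : Type*} [NormedAddCommGroup E] [NormedSpace ℂ E]

theorem exists_ss {A P : E →L[ℂ] E} (hA : FinRank A) (hPP : P * P = P) (hPA : P * A = A)
    (hAP : A * P = A) {η : ℝ}
    (hη : 0 < η) : ∃ (A' : E →L[ℂ] E) (χ : ℂ[X]), ‖A' - A‖ ≤ η ∧ P * A' = A' ∧ A' * P = A' ∧
      aeval A' χ = 0 ∧ χ.Separable := by
  set F : Submodule ℂ E := LinearMap.range (A : E →ₗ[ℂ] E) with hF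
  haveI : FiniteDimensional ℂ F := hA
  let Cc : E →L[ℂ] F := A.codRestrict F (fun x => ⟨x, rfl⟩)
  have hC : ∀ x, ((Cc x : F) : E) = A x := fun x => rfl
  have hCs : Function.Surjective (Cc : E →ₗ[ℂ] F) := by
    rintro ⟨_, x, rfl⟩
    exact ⟨x, rfl⟩
  obtain ⟨R0, hR0⟩ := (Cc : E →ₗ[ℂ] F).exists_rightInverse_of_surjective
    (LinearMap.range_eq_top.2 hCs)
  have hR0' : ∀ z : F, Cc (R0 z) = z := fun z => LinearMap.congr_fun hR0 z
  let Bc : F →L[ℂ] E := F.subtypeL
  let M : Module.End ℂ F := (Cc : E →ₗ[ℂ] F) ∘ₗ (Bc : F →ₗ[ℂ] E)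
  obtain ⟨D, hD⟩ := ss_end M
  -- the correction
  let N1 : F →L[ℂ] E := P.comp (LinearMap.toContinuousLinearMap (R0 ∘ₗ D))
  let N2 : F →L[ℂ] E := P.comp (LinearMap.toContinuousLinearMap R0)
  set K : ℝ := ‖N1.comp Cc‖ + ‖N2.comp Cc‖ + 1 with hK
  have hK0 : 0 < K := by positivity
  obtain ⟨a, b, ha0, ha, hb0, hb, χ, hχs, hχ⟩ := hD (η / K) (by positivity)
  set M' : Module.End ℂ F := M + (a : ℂ) • D + (b : ℂ) • (1 : Module.End ℂ F) with hM'
  set A' : E →L[ℂ] E := A + ((a : ℂ) • N1.comp Cc + (b : ℂ) • N2.comp Cc) with hA'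
  have hCP : ∀ x, Cc (P x) = Cc x := by
    intro x
    apply Subtype.ext
    rw [hC, hC]
    exact congrArg (fun T : E →L[ℂ] E => T x) hAP
  have hPPx : ∀ z : E, P (P z) = P z := fun z => congrArg (fun T : E →L[ℂ] E => T z) hPP
  have hPAx : ∀ z : E, P (A z) = A z := fun z => congrArg (fun T : E →L[ℂ] E => T z) hPA
  -- `A' x = B' (C x)` and `C B' = M'`
  let B' : F →ₗ[ℂ] E := (Bc : F →ₗ[ℂ] E) + (a : ℂ) • (N1 : F →ₗ[ℂ] E) + (b : ℂ) • (N2 : F →ₗ[ℂ] E)
  have hA'x : ∀ x, A' x = B' (Cc x) := by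
    intro x
    show A x + ((a : ℂ) • N1 (Cc x) + (b : ℂ) • N2 (Cc x)) =
      (Cc x : E) + (a : ℂ) • N1 (Cc x) + (b : ℂ) • N2 (Cc x)
    rw [hC]
    abel
  have hCB : ∀ z : F, Cc (B' z) = M' z := by
    intro z
    show Cc ((z : E) + (a : ℂ) • P (R0 (D z)) + (b : ℂ) • P (R0 z)) =
      Cc (z : E) + (a : ℂ) • D z + (b : ℂ) • z
    rw [map_add, map_add, map_smul, map_smul, hCP, hCP, hR0', hR0']
  have hpow : ∀ f : ℂ[X], ∀ x, A' ((aeval A' f) x) = B' ((aeval M' f) (Cc x)) := by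
    intro f
    induction f using Polynomial.induction_on' with
    | add f g hf hg =>
      intro x
      have e1 : (aeval A' (f + g)) x = (aeval A' f) x + (aeval A' g) x := by
        rw [map_add, _root_.add_apply]
      have e2 : (aeval M' (f + g)) (Cc x) = (aeval M' f) (Cc x) + (aeval M' g) (Cc x) := by
        rw [map_add, LinearMap.add_apply]
      rw [e1, e2, B'.map_add, ← hf, ← hg]
      exact A'.map_add _ _
    | monomial n c =>
      intro x
      rw [aeval_monomial, aeval_monomial, Algebra.algebraMap_eq_smul_one,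
        Algebra.algebraMap_eq_smul_one, smul_mul_assoc, one_mul, smul_mul_assoc, one_mul,
        _root_.smul_apply, map_smul, LinearMap.smul_apply, map_smul]
      congr 1
      clear c
      induction n generalizing x with
      | zero =>
        rw [pow_zero, pow_zero]
        exact hA'x x
      | succ n ih =>
        have e1 : (A' ^ (n + 1)) x = (A' ^ n) (A' x) := by rw [pow_succ]; rfl
        have e2 : (M' ^ (n + 1)) (Cc x) = (M' ^ n) (M' (Cc x)) := by rw [pow_succ]; rfl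
        rw [e1, e2, ih, hA'x, hCB]
  refine ⟨A', X * χ, ?_, ?_, ?_, ?_, hχs⟩
  · rw [hA', add_sub_cancel_left]
    refine (norm_add_le _ _).trans ?_
    rw [norm_smul, norm_smul, Complex.norm_real, Complex.norm_real, Real.norm_of_nonneg ha0,
      Real.norm_of_nonneg hb0]
    have h1 : a * ‖N1.comp Cc‖ ≤ η / K * ‖N1.comp Cc‖ :=
      mul_le_mul_of_nonneg_right ha (norm_nonneg _)
    have h2 : b * ‖N2.comp Cc‖ ≤ η / K * ‖N2.comp Cc‖ :=
      mul_le_mul_of_nonneg_right hb (norm_nonneg _)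
    have h3 : η / K * K = η := by field_simp
    have h4 : 0 ≤ η / K := by positivity
    nlinarith
  · ext x
    show P (A' x) = A' x
    have e : A' x = A x + ((a : ℂ) • P (R0 (D (Cc x))) + (b : ℂ) • P (R0 (Cc x))) := rfl
    rw [e, map_add, map_add, map_smul, map_smul, hPPx, hPPx, hPAx]
  · ext x
    show A' (P x) = A' x
    rw [hA'x, hA'x, hCP]
  · ext x
    rw [map_mul, aeval_X]
    show A' ((aeval A' χ) x) = 0
    rw [hpow, hχ, LinearMap.zero_apply, map_zero]

end Run7.h667.TC
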