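import Pool.Agent.Run7.h667.TC.Rep

/-!
# Semicontinuity of the norm of functionals on the commutant in the strong* topology
-/

set_option autoImplicit false
open Finset Filter Topology
open Pool.Agent.Y280

namespace Run7.h667.TC

variable {E : Type*} [NormedAddCommGroup E] [NormedSpace ℂ E]

lemma exists_limit_op (hE : Refl E) (S : ℕ → E →L[ℂ] E) (hS : ∀ k, ‖S k‖ ≤ 1)
    (U : Ultrafilter ℕ) :
    ∃ R : E →L[ℂ] E, ‖R‖ ≤ 1 ∧ ∀ (u : E) (v : StrongDual ℂ E),
      Tendsto (fun k => v (S k u)) U (𝓝 (v (R u))) := by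
  have hb : ∀ (u : E) (v : StrongDual ℂ E) (k : ℕ), ‖v (S k u)‖ ≤ 1 * ‖u‖ * ‖v‖ := by
    intro u v k
    have := norm_pair_le (hS k) u v
    linarith
  have h1 : ∀ (u : E) (v : StrongDual ℂ E), ∃ l : ℂ, Tendsto (fun k => v (S k u)) U (𝓝 l) := by
    intro u v
    have hc : IsCompact (Metric.closedBall (0 : ℂ) (1 * ‖u‖ * ‖v‖)) := isCompact_closedBall _ _
    have h2 : (Metric.closedBall (0 : ℂ) (1 * ‖u‖ * ‖v‖)) ∈ U.map (fun k => v (S k u)) := by
      rw [Ultrafilter.mem_map]
      refine Filter.univ_mem' fun k => ?_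
      show v (S k u) ∈ Metric.closedBall (0 : ℂ) (1 * ‖u‖ * ‖v‖)
      rw [mem_closedBall_zero_iff]
      exact hb u v k
    obtain ⟨l, -, hl⟩ := hc.ultrafilter_le_nhds' _ h2
    exact ⟨l, hl⟩
  choose l hl using h1
  let B : E →ₗ[ℂ] StrongDual ℂ E →ₗ[ℂ] ℂ := LinearMap.mk₂ ℂ l
    (fun u u' v => by
      refine tendsto_nhds_unique (hl (u + u') v) (((hl u v).add (hl u' v)).congr fun k => ?_)
      rw [map_add, map_add])
    (fun c u v => by
      refine tendsto_nhds_unique (hl (c • u) v) (((hl u v).const_mul c).congr fun k => ?_)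
      rw [map_smul, map_smul, smul_eq_mul])
    (fun u v v' => by
      refine tendsto_nhds_unique (hl u (v + v')) (((hl u v).add (hl u v')).congr fun k => ?_)
      rw [_root_.add_apply])
    (fun c u v => by
      refine tendsto_nhds_unique (hl u (c • v)) (((hl u v).const_mul c).congr fun k => ?_)
      rw [_root_.smul_apply, smul_eq_mul])
  obtain ⟨R, hR1, hR2⟩ := exists_op hE B zero_le_one fun u v =>
    le_of_tendsto (hl u v).norm (Eventually.of_forall fun k => hb u v k)
  refine ⟨R, hR1, fun u v => ?_⟩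
  rw [hR2 u v]
  exact hl u v

variable {W : Type*} [TopologicalSpace W] {Φ : W → E →L[ℂ] E}

/-- **Semicontinuity.** -/
theorem mem_interior_HSO [FirstCountableTopology W] (h : BallS Φ) (hE : Refl E) {w : W} {x : E}
    {y : StrongDual ℂ E} {ρ ρ' : ℝ} (hH : HC (Φ w) x y ρ) (hρ : ρ < ρ') :
    w ∈ interior (HS Φ x y ρ') := by
  by_contra hc
  have h1 : w ∈ closure (HS Φ x y ρ')ᶜ := by
    rw [closure_compl]
    exact hc
  obtain ⟨v, hv, hvw⟩ := mem_closure_iff_seq_limit.1 h1
  have h2 : ∀ k, ∃ S : E →L[ℂ] E, S * Φ (v k) = Φ (v k) * S ∧ ‖S‖ ≤ 1 ∧ ρ' < ‖y (S x)‖ := by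
    intro k
    have h3 : ¬ HC (Φ (v k)) x y ρ' := hv k
    unfold HC at h3
    push Not at h3
    obtain ⟨S, hS1, hS2, hS3⟩ := h3
    exact ⟨S, hS1, hS2, hS3⟩
  choose S hS1 hS2 hS3 using h2
  obtain ⟨R, hR1, hR2⟩ := exists_limit_op hE S hS2 (hyperfilter ℕ)
  have hU : (hyperfilter ℕ : Filter ℕ) ≤ atTop := Nat.hyperfilter_le_atTop
  obtain ⟨hc1, hc2⟩ := h.conv v w hvw
  have hcomm : R * Φ w = Φ w * R := by
    have h4 : ∀ (u : E) (f : StrongDual ℂ E), f ((R * Φ w) u) = f ((Φ w * R) u) := by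
      intro u f
      have h5 : Tendsto (fun k => f (S k (Φ w u))) (hyperfilter ℕ) (𝓝 (f (R (Φ w u)))) :=
        hR2 (Φ w u) f
      have h6 : Tendsto (fun k => (f.comp (Φ w)) (S k u)) (hyperfilter ℕ)
          (𝓝 ((f.comp (Φ w)) (R u))) := hR2 u (f.comp (Φ w))
      have h7 : Tendsto (fun k => f (S k (Φ w u)) - f (S k (Φ (v k) u))) (hyperfilter ℕ) (𝓝 0) := by
        have h8 : Tendsto (fun k => ‖f‖ * ‖Φ (v k) u - Φ w u‖) (hyperfilter ℕ) (𝓝 (‖f‖ * 0)) :=
          ((tendsto_iff_norm_sub_tendsto_zero.1 (hc1 u)).const_mul _).mono_left hU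
        rw [mul_zero] at h8
        refine squeeze_zero_norm (fun k => ?_) h8
        rw [← map_sub, ← map_sub]
        refine (norm_pair_le (hS2 k) _ f).trans (le_of_eq ?_)
        rw [norm_sub_rev]
      have h9 : Tendsto (fun k => f (Φ (v k) (S k u)) - (f.comp (Φ w)) (S k u)) (hyperfilter ℕ)
          (𝓝 0) := by
        have h8 : Tendsto (fun k => ‖f.comp (Φ (v k)) - f.comp (Φ w)‖ * ‖u‖) (hyperfilter ℕ)
            (𝓝 (0 * ‖u‖)) :=
          ((tendsto_iff_norm_sub_tendsto_zero.1 (hc2 f)).mul_const _).mono_left hU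
        rw [zero_mul] at h8
        refine squeeze_zero_norm (fun k => ?_) h8
        have e : f (Φ (v k) (S k u)) - (f.comp (Φ w)) (S k u) =
            (f.comp (Φ (v k)) - f.comp (Φ w)) (S k u) := rfl
        rw [e]
        refine (ContinuousLinearMap.le_opNorm _ _).trans
          (mul_le_mul_of_nonneg_left ?_ (norm_nonneg _))
        exact ((S k).le_opNorm u).trans (mul_le_of_le_one_left (norm_nonneg _) (hS2 k))
      have h10 : ∀ k, f (S k (Φ (v k) u)) = f (Φ (v k) (S k u)) := by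
        intro k
        have := congrArg (fun T : E →L[ℂ] E => f (T u)) (hS1 k)
        exact this
      have h11 : Tendsto (fun k => f (S k (Φ w u))) (hyperfilter ℕ) (𝓝 ((f.comp (Φ w)) (R u))) := by
        have h12 := (h7.add h9).add h6
        rw [zero_add, zero_add] at h12
        refine h12.congr fun k => ?_
        rw [h10]
        ring
      exact tendsto_nhds_unique h5 h11
    ext u
    by_contra hne
    obtain ⟨g, hg⟩ := SeparatingDual.exists_separating_of_ne (R := ℂ) hne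
    exact hg (h4 u g)
  have h13 := hH R hcomm hR1
  have h14 : ρ' ≤ ‖y (R x)‖ := ge_of_tendsto (hR2 x y).norm
    (Eventually.of_forall fun k => (hS3 k).le)
  linarith

end Run7.h667.TC
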