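import Pool.Agent.Run7.h667.TC.Blocks

/-!
# The density step
-/

set_option autoImplicit false
open Finset Filter Topology Polynomial
open Pool.Agent.Y280

namespace Run7.h667.TC

variable {E : Type*} [NormedAddCommGroup E] [NormedSpace ℂ E]

lemma rep_nat {p q : ℝ} (hpq : p.HolderConjugate q) (hE : Refl E) {A : E →L[ℂ] E}
    {x : E} {y : StrongDual ℂ E} {ρ : ℝ} (hρ : 0 < ρ) (h : HC A x y ρ) {η : ℝ} (hη : 0 < η) :
    ∃ (m : ℕ) (u : ℕ → E) (f : ℕ → StrongDual ℂ E), 0 < m ∧ u 0 = x ∧ f 0 = y ∧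
      ∑ b ∈ range m, ‖u (b + 1)‖ ^ p ≤ ρ ∧ ∑ b ∈ range m, ‖f (b + 1)‖ ^ q ≤ ρ ∧
      ∀ R : E →L[ℂ] E, R * A = A * R → ‖R‖ ≤ 1 → ‖∑ a ∈ range (m + 1), f a (R (u a))‖ ≤ η := by
  obtain ⟨m, U, V, hU, hV, hrep⟩ := exists_repO hpq hE hρ h hη
  refine ⟨m + 1, fun n => if n = 0 then x else if h : n - 1 < m then U ⟨n - 1, h⟩ else 0,
    fun n => if n = 0 then y else if h : n - 1 < m then -V ⟨n - 1, h⟩ else 0, Nat.succ_pos m,
    rfl, rfl, ?_, ?_, ?_⟩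
  · refine le_trans (le_of_eq ?_) hU
    rw [sum_range_succ, ← Fin.sum_univ_eq_sum_range]
    simp [Real.zero_rpow hpq.ne_zero]
  · refine le_trans (le_of_eq ?_) hV
    rw [sum_range_succ, ← Fin.sum_univ_eq_sum_range]
    simp [Real.zero_rpow hpq.symm.ne_zero]
  · intro R hR hR1
    refine le_trans (le_of_eq ?_) (hrep R hR hR1)
    congr 1
    rw [sum_range_succ', sum_range_succ, ← Fin.sum_univ_eq_sum_range]
    simp
    ring

/-- The space has projections which approximate the identity, and whose ranges have copies far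
away. -/
def Room (p : ℝ) (E : Type*) [NormedAddCommGroup E] [NormedSpace ℂ E] : Prop :=
  ∀ (X : Finset E) (Y : Finset (StrongDual ℂ E)) (ε : ℝ), 0 < ε → ∃ P : E →L[ℂ] E,
    P * P = P ∧ ‖P‖ ≤ 1 ∧ (∀ x ∈ X, ‖P x - x‖ ≤ ε) ∧ (∀ y ∈ Y, ‖y.comp P - y‖ ≤ ε) ∧
    ∀ (n : ℕ) (X' : Finset E) (Y' : Finset (StrongDual ℂ E)) (ε' : ℝ), 0 < ε' →
      ∃ U V : ℕ → E →L[ℂ] E, Cop p P U V (n + 2) ∧ ∀ i < n + 2, 0 < i →
        (∀ x ∈ X', ‖V i x‖ ≤ ε') ∧ ∀ y ∈ Y', ‖y.comp (U i)‖ ≤ ε'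

lemma le_sum_norm {F : Type*} [NormedAddCommGroup F] (X : Finset F) {x : F} (hx : x ∈ X) :
    ‖x‖ ≤ ∑ x ∈ X, ‖x‖ :=
  single_le_sum (f := fun x : F => ‖x‖) (fun _ _ => norm_nonneg _) hx

/-- composition of approximations of the identity -/
lemma near_comp {T0 P R : E →L[ℂ] E} (hT : ‖T0‖ ≤ 1) (hP : ‖P‖ ≤ 1) (hR : ‖R‖ ≤ 1) {z : E}
    {ε : ℝ} (hε : 0 ≤ ε) (h1 : ‖P z - z‖ ≤ ε) (h2 : ‖R z - z‖ ≤ ε) (h3 : ‖P (T0 z) - T0 z‖ ≤ ε)
    (h4 : ‖R (T0 z) - T0 z‖ ≤ ε) {c : ℝ} (hc0 : 0 ≤ c) (hc1 : c ≤ 1) :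
    ‖((c : ℂ) • (P * R * T0 * R * P)) z - T0 z‖ ≤ 4 * ε + (1 - c) * ‖z‖ := by
  have hb : ∀ {G : E →L[ℂ] E}, ‖G‖ ≤ 1 → ∀ w, ‖G w‖ ≤ ‖w‖ := fun hG w =>
    ((ContinuousLinearMap.le_opNorm _ w).trans (mul_le_of_le_one_left (norm_nonneg _) hG))
  have e1 : P (R (T0 (R (P z)))) - T0 z = P (R (T0 (R (P z - z)))) + P (R (T0 (R z - z))) +
      P (R (T0 z) - T0 z) + (P (T0 z) - T0 z) := by
    simp only [map_sub]
    abel
  have h5 : ‖P (R (T0 (R (P z)))) - T0 z‖ ≤ 4 * ε := by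
    rw [e1]
    have a1 : ‖P (R (T0 (R (P z - z))))‖ ≤ ε :=
      (hb hP _).trans ((hb hR _).trans ((hb hT _).trans ((hb hR _).trans h1)))
    have a2 : ‖P (R (T0 (R z - z)))‖ ≤ ε := (hb hP _).trans ((hb hR _).trans ((hb hT _).trans h2))
    have a3 : ‖P (R (T0 z) - T0 z)‖ ≤ ε := (hb hP _).trans h4
    have b1 := norm_add_le (P (R (T0 (R (P z - z)))) + P (R (T0 (R z - z))) +
      P (R (T0 z) - T0 z)) (P (T0 z) - T0 z)
    have b2 := norm_add_le (P (R (T0 (R (P z - z)))) + P (R (T0 (R z - z))))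
      (P (R (T0 z) - T0 z))
    have b3 := norm_add_le (P (R (T0 (R (P z - z))))) (P (R (T0 (R z - z))))
    linarith
  have e2 : ((c : ℂ) • (P * R * T0 * R * P)) z - T0 z =
      (c : ℂ) • (P (R (T0 (R (P z)))) - T0 z) - ((1 - c : ℝ) : ℂ) • T0 z := by
    have : ((c : ℂ) • (P * R * T0 * R * P)) z = (c : ℂ) • P (R (T0 (R (P z)))) := rfl
    rw [this, smul_sub, Complex.ofReal_sub, sub_smul, Complex.ofReal_one, one_smul]
    abel
  rw [e2]
  refine (norm_sub_le _ _).trans ?_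
  rw [norm_smul, norm_smul, Complex.norm_real, Complex.norm_real, Real.norm_of_nonneg hc0,
    Real.norm_of_nonneg (by linarith)]
  have h6 : c * ‖P (R (T0 (R (P z)))) - T0 z‖ ≤ 4 * ε := by
    calc _ ≤ 1 * (4 * ε) := mul_le_mul hc1 h5 (norm_nonneg _) zero_le_one
      _ = 4 * ε := one_mul _
  have h7 : (1 - c) * ‖T0 z‖ ≤ (1 - c) * ‖z‖ :=
    mul_le_mul_of_nonneg_left (hb hT z) (by linarith)
  linarith

/-- the same for functionals -/
lemma near_comp_dual {T0 P R : E →L[ℂ] E} (hT : ‖T0‖ ≤ 1) (hP : ‖P‖ ≤ 1) (hR : ‖R‖ ≤ 1)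
    {y : StrongDual ℂ E}
    {ε : ℝ} (hε : 0 ≤ ε) (h1 : ‖y.comp P - y‖ ≤ ε) (h2 : ‖y.comp R - y‖ ≤ ε)
    (h3 : ‖(y.comp T0).comp P - y.comp T0‖ ≤ ε) (h4 : ‖(y.comp T0).comp R - y.comp T0‖ ≤ ε)
    {c : ℝ} (hc0 : 0 ≤ c) (hc1 : c ≤ 1) :
    ‖y.comp ((c : ℂ) • (P * R * T0 * R * P)) - y.comp T0‖ ≤ 4 * ε + (1 - c) * ‖y‖ := by
  have hb : ∀ {G : E →L[ℂ] E}, ‖G‖ ≤ 1 → ∀ w : StrongDual ℂ E, ‖w.comp G‖ ≤ ‖w‖ := fun hG w =>
    ((ContinuousLinearMap.opNorm_comp_le _ _).trans (mul_le_of_le_one_right (norm_nonneg _) hG))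
  have e1 : y.comp (P * R * T0 * R * P) - y.comp T0 =
      ((((y.comp P - y).comp R).comp T0).comp R).comp P +
      (((y.comp R - y).comp T0).comp R).comp P +
      ((y.comp T0).comp R - y.comp T0).comp P + ((y.comp T0).comp P - y.comp T0) := by
    ext z
    have : (y.comp (P * R * T0 * R * P)) z = y (P (R (T0 (R (P z))))) := rfl
    simp only [_root_.sub_apply, _root_.add_apply, ContinuousLinearMap.comp_apply, this]
    ring
  have h5 : ‖y.comp (P * R * T0 * R * P) - y.comp T0‖ ≤ 4 * ε := by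
    rw [e1]
    have a1 : ‖((((y.comp P - y).comp R).comp T0).comp R).comp P‖ ≤ ε :=
      (hb hP _).trans ((hb hR _).trans ((hb hT _).trans ((hb hR _).trans h1)))
    have a2 : ‖(((y.comp R - y).comp T0).comp R).comp P‖ ≤ ε :=
      (hb hP _).trans ((hb hR _).trans ((hb hT _).trans h2))
    have a3 : ‖((y.comp T0).comp R - y.comp T0).comp P‖ ≤ ε := (hb hP _).trans h4
    have b1 := norm_add_le (((((y.comp P - y).comp R).comp T0).comp R).comp P +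
      (((y.comp R - y).comp T0).comp R).comp P +
      ((y.comp T0).comp R - y.comp T0).comp P) ((y.comp T0).comp P - y.comp T0)
    have b2 := norm_add_le (((((y.comp P - y).comp R).comp T0).comp R).comp P +
      (((y.comp R - y).comp T0).comp R).comp P) (((y.comp T0).comp R - y.comp T0).comp P)
    have b3 := norm_add_le (((((y.comp P - y).comp R).comp T0).comp R).comp P)
      ((((y.comp R - y).comp T0).comp R).comp P)
    linarith
  have e2 : y.comp ((c : ℂ) • (P * R * T0 * R * P)) - y.comp T0 =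
      (c : ℂ) • (y.comp (P * R * T0 * R * P) - y.comp T0) - ((1 - c : ℝ) : ℂ) • y.comp T0 := by
    ext z
    simp only [_root_.sub_apply, _root_.smul_apply, ContinuousLinearMap.comp_apply, map_smul,
      smul_eq_mul]
    push_cast
    ring
  rw [e2]
  refine (norm_sub_le _ _).trans ?_
  rw [norm_smul, norm_smul, Complex.norm_real, Complex.norm_real, Real.norm_of_nonneg hc0,
    Real.norm_of_nonneg (by linarith)]
  have h6 : c * ‖y.comp (P * R * T0 * R * P) - y.comp T0‖ ≤ 4 * ε := by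
    calc _ ≤ 1 * (4 * ε) := mul_le_mul hc1 h5 (norm_nonneg _) zero_le_one
      _ = 4 * ε := one_mul _
  have h7 : (1 - c) * ‖y.comp T0‖ ≤ (1 - c) * ‖y‖ :=
    mul_le_mul_of_nonneg_left (hb hT y) (by linarith)
  linarith

variable {W : Type*} [TopologicalSpace W] {Φ : W → E →L[ℂ] E}

/-- Density of the semisimple strict contractions of finite rank. -/
lemma exists_ss_op {p : ℝ} (hE : Refl E) (hM : MAP E) (hRoom : Room p E) (h : BallS Φ)
    {O : Set W} (hO : IsOpen O) {w0 : W} (hw0 : w0 ∈ O) (x : E) (y : StrongDual ℂ E) {ε : ℝ}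
    (hε : 0 < ε) :
    ∃ w1 ∈ O, ∃ P : E →L[ℂ] E, P * P = P ∧ ‖P‖ ≤ 1 ∧ ‖P x - x‖ ≤ ε ∧ ‖y.comp P - y‖ ≤ ε ∧
      (∀ (n : ℕ) (X' : Finset E) (Y' : Finset (StrongDual ℂ E)) (ε' : ℝ), 0 < ε' →
        ∃ U V : ℕ → E →L[ℂ] E, Cop p P U V (n + 2) ∧ ∀ i < n + 2, 0 < i →
          (∀ x ∈ X', ‖V i x‖ ≤ ε') ∧ ∀ y ∈ Y', ‖y.comp (U i)‖ ≤ ε') ∧
      P * Φ w1 = Φ w1 ∧ Φ w1 * P = Φ w1 ∧ ‖Φ w1‖ < 1 ∧
      ∃ χ : ℂ[X], aeval (Φ w1) χ = 0 ∧ χ.Separable := by
  classical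
  obtain ⟨X, Y, ε1, hε1, hnear⟩ := h.nhd w0 O hO hw0
  set T := Φ w0 with hT
  have hT1 : ‖T‖ ≤ 1 := h.norm w0
  set M : ℝ := ∑ x ∈ X, ‖x‖ + ∑ y ∈ Y, ‖y‖ + 1 with hMdef
  have hsX : 0 ≤ ∑ x ∈ X, ‖x‖ := sum_nonneg fun _ _ => norm_nonneg _
  have hsY : 0 ≤ ∑ y ∈ Y, ‖y‖ := sum_nonneg fun _ _ => norm_nonneg _
  have hMX : ∀ x ∈ X, ‖x‖ ≤ M := fun x hx => by have := le_sum_norm X hx; linarith
  have hMY : ∀ y ∈ Y, ‖y‖ ≤ M := fun y hy => by have := le_sum_norm Y hy; linarith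
  have hM0 : 0 < M := by linarith
  -- the constants
  obtain ⟨c, hc0, hc1, hcM⟩ : ∃ c : ℝ, 0 ≤ c ∧ c < 1 ∧ (1 - c) * M ≤ ε1 / 4 := by
    refine ⟨max 0 (1 - ε1 / (4 * M)), le_max_left _ _, max_lt one_pos (by
      have : 0 < ε1 / (4 * M) := by positivity
      linarith), ?_⟩
    have h1 : 1 - max 0 (1 - ε1 / (4 * M)) ≤ ε1 / (4 * M) := by
      have := le_max_right 0 (1 - ε1 / (4 * M))
      linarith
    calc _ ≤ ε1 / (4 * M) * M := mul_le_mul_of_nonneg_right h1 hM0.le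
      _ = ε1 / 4 := by field_simp
  set ε2 : ℝ := min ε (ε1 / 32) with hε2
  have hε20 : 0 < ε2 := lt_min hε (by positivity)
  have hε2a : ε2 ≤ ε := min_le_left _ _
  have hε2b : ε2 ≤ ε1 / 32 := min_le_right _ _
  obtain ⟨R, hRf, hR1, hRx, hRy⟩ := map_dual hE hM (X ∪ X.image T) (Y ∪ Y.image fun y => y.comp T)
    hε20
  obtain ⟨P, hPP, hP1, hPx, hPy, hext⟩ := hRoom (insert x (X ∪ X.image T))
    (insert y (Y ∪ Y.image fun y => y.comp T)) ε2 hε20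
  set A0 : E →L[ℂ] E := (c : ℂ) • (P * R * T * R * P) with hA0
  have hA0f : FinRank A0 := by
    refine FinRank.smul ?_ _
    have e : P * R * T * R * P = P * (R * (T * R * P)) := by simp only [mul_assoc]
    rw [e]
    exact (hRf.mul_right _).mul_left _
  have hA0P : P * A0 = A0 := by
    rw [hA0, mul_smul_comm]
    have e : P * (P * R * T * R * P) = (P * P) * R * T * R * P := by simp only [mul_assoc]
    rw [e, hPP]
  have hA0P' : A0 * P = A0 := by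
    rw [hA0, smul_mul_assoc, mul_assoc, hPP]
  have hA0n : ‖A0‖ ≤ c := by
    rw [hA0, norm_smul, Complex.norm_real, Real.norm_of_nonneg hc0]
    have h1 : ‖P * R * T * R * P‖ ≤ 1 := by
      have a1 : ‖P * R‖ ≤ 1 := (norm_mul_le _ _).trans (mul_le_one₀ hP1 (norm_nonneg _) hR1)
      have a2 : ‖P * R * T‖ ≤ 1 := (norm_mul_le _ _).trans (mul_le_one₀ a1 (norm_nonneg _) hT1)
      have a3 : ‖P * R * T * R‖ ≤ 1 := (norm_mul_le _ _).trans (mul_le_one₀ a2 (norm_nonneg _) hR1)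
      exact (norm_mul_le _ _).trans (mul_le_one₀ a3 (norm_nonneg _) hP1)
    exact mul_le_of_le_one_right hc0 h1
  set ε3 : ℝ := min ((1 - c) / 2) (ε1 / (4 * M)) with hε3
  have hε30 : 0 < ε3 := lt_min (by linarith) (by positivity)
  have hε3a : ε3 ≤ (1 - c) / 2 := min_le_left _ _
  have hε3b : ε3 * M ≤ ε1 / 4 := by
    calc _ ≤ ε1 / (4 * M) * M := mul_le_mul_of_nonneg_right (min_le_right _ _) hM0.le
      _ = ε1 / 4 := by field_simp
  obtain ⟨A, χ, hAA0, hPA, hAP, hχ, hχs⟩ := exists_ss hA0f hPP hA0P hA0P' hε30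
  have hAn : ‖A‖ < 1 := by
    have e : A = A0 + (A - A0) := by abel
    rw [e]
    refine (norm_add_le _ _).trans_lt ?_
    linarith
  obtain ⟨w1, hw1⟩ := h.surj A hAn.le
  refine ⟨w1, ?_, P, hPP, hP1, ?_, ?_, hext, by rw [hw1]; exact hPA, by rw [hw1]; exact hAP,
    by rw [hw1]; exact hAn, χ, by rw [hw1]; exact hχ, hχs⟩
  · apply hnear
    · intro z hz
      have hz1 : z ∈ X ∪ X.image T := mem_union_left _ hz
      have hz2 : T z ∈ X ∪ X.image T := mem_union_right _ (mem_image_of_mem _ hz)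
      have h1 := near_comp hT1 hP1 hR1 hε20.le (hPx z (mem_insert_of_mem hz1)) (hRx z hz1)
        (hPx _ (mem_insert_of_mem hz2)) (hRx _ hz2) hc0 hc1.le
      rw [hw1]
      have e : A z - T z = (A - A0) z + (A0 z - T z) := by rw [_root_.sub_apply]; abel
      rw [e]
      have h2 : ‖(A - A0) z‖ ≤ ε3 * M := ((A - A0).le_opNorm z).trans
        (mul_le_mul hAA0 (hMX z hz) (norm_nonneg _) hε30.le)
      have h3 : (1 - c) * ‖z‖ ≤ (1 - c) * M := mul_le_mul_of_nonneg_left (hMX z hz) (by linarith)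
      refine (norm_add_le _ _).trans_lt ?_
      linarith
    · intro z hz
      have hz1 : z ∈ Y ∪ Y.image fun y => y.comp T := mem_union_left _ hz
      have hz2 : z.comp T ∈ Y ∪ Y.image fun y => y.comp T :=
        mem_union_right _ (mem_image_of_mem (fun y : StrongDual ℂ E => y.comp T) hz)
      have h1 := near_comp_dual hT1 hP1 hR1 hε20.le (hPy z (mem_insert_of_mem hz1)) (hRy z hz1)
        (hPy _ (mem_insert_of_mem hz2)) (hRy _ hz2) hc0 hc1.le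
      rw [hw1]
      have e : z.comp A - z.comp T = z.comp (A - A0) + (z.comp A0 - z.comp T) := by
        rw [ContinuousLinearMap.comp_sub]; abel
      rw [e]
      have h2 : ‖z.comp (A - A0)‖ ≤ M * ε3 := (ContinuousLinearMap.opNorm_comp_le _ _).trans
        (mul_le_mul (hMY z hz) hAA0 (norm_nonneg _) hM0.le)
      have h3 : (1 - c) * ‖z‖ ≤ (1 - c) * M := mul_le_mul_of_nonneg_left (hMY z hz) (by linarith)
      refine (norm_add_le _ _).trans_lt ?_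
      linarith
  · exact (hPx x (mem_insert_self _ _)).trans hε2a
  · exact (hPy y (mem_insert_self _ _)).trans hε2a

end Run7.h667.TC
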