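import Pool.Agent.Run7.h667.TC.Step

/-!
# The density step, II
-/

set_option autoImplicit false
open Finset Filter Topology Polynomial
open Pool.Agent.Y280

namespace Run7.h667.TC

variable {E : Type*} [NormedAddCommGroup E] [NormedSpace ℂ E]
variable {W : Type*} [TopologicalSpace W] {Φ : W → E →L[ℂ] E}

section close

variable {p q : ℝ} {P A : E →L[ℂ] E} {U V : ℕ → E →L[ℂ] E} {m : ℕ}

lemma close_x (h : Cop p P U V (m + 2)) (hp : 0 < p) (hPA : P * A = A) (hAP : A * P = A)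
    (hA : ‖A‖ ≤ 1) (hm : 0 < m) {δ w : ℝ} (hδ : 0 ≤ δ) (hδw : δ ≤ w) (hw : w ≤ 1) {z : E} {ε : ℝ}
    (hV : ∀ i < m + 2, 0 < i → ‖V i z‖ ≤ ε) :
    ‖bigO A U V m δ w z - A z‖ ≤ 2 * (m + 1) * ε + δ * ‖z‖ := by
  have e1 : bigO A U V m δ w z - A z = ∑ j ∈ range (m + 1), U (j + 1) (A (V (j + 1) z)) +
      (∑ j ∈ range m, wt m δ w (j + 1) • U (j + 2) (V (j + 1) z) +
        wt m δ w 0 • U 1 (V 0 z)) := by
    have s2 : ∑ j ∈ range (m + 1), (wt m δ w j • (U (j + 1) * V j)) z =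
        ∑ j ∈ range m, wt m δ w (j + 1) • U (j + 2) (V (j + 1) z) +
          wt m δ w 0 • U 1 (V 0 z) := by
      rw [sum_range_succ' _ m]
      rfl
    have s1 : ∑ j ∈ range (m + 2), (U j * A * V j) z =
        ∑ j ∈ range (m + 1), U (j + 1) (A (V (j + 1) z)) + A z := by
      have e2 : (U 0 * A * V 0) z = A z := by
        rw [h.U0, h.V0, hPA, hAP]
      rw [sum_range_succ' _ (m + 1), e2]
      rfl
    unfold bigO
    rw [_root_.add_apply, _root_.sum_apply, _root_.sum_apply, s1, s2]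
    abel
  have hw0 : 0 ≤ w := hδ.trans hδw
  have h1 : ‖∑ j ∈ range (m + 1), U (j + 1) (A (V (j + 1) z))‖ ≤ (m + 1) * ε := by
    refine (norm_sum_le _ _).trans ?_
    refine (sum_le_sum (g := fun _ => ε) fun j hj => ?_).trans (le_of_eq (by simp))
    rw [mem_range] at hj
    refine (h.norm_U hp (by omega) _).trans ?_
    refine (A.le_opNorm _).trans ((mul_le_of_le_one_left (norm_nonneg _) hA).trans ?_)
    exact hV _ (by omega) (by omega)
  have h2 : ‖∑ j ∈ range m, wt m δ w (j + 1) • U (j + 2) (V (j + 1) z)‖ ≤ (m + 1) * ε := by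
    have hε : 0 ≤ ε := (norm_nonneg _).trans (hV 1 (by omega) one_pos)
    refine (norm_sum_le _ _).trans ?_
    refine (sum_le_sum (g := fun _ => ε) fun j hj => ?_).trans (le_of_eq_of_le (b := m * ε)
      (by simp) (by nlinarith))
    rw [mem_range] at hj
    rw [norm_smul]
    have a1 : ‖wt m δ w (j + 1)‖ ≤ 1 := (norm_wt_le hδ hδw _).trans hw
    refine (mul_le_of_le_one_left (norm_nonneg _) a1).trans ?_
    exact (h.norm_U hp (by omega) _).trans (hV _ (by omega) (by omega))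
  have h3 : ‖wt m δ w 0 • U 1 (V 0 z)‖ ≤ δ * ‖z‖ := by
    rw [norm_smul]
    have a1 : ‖wt m δ w 0‖ = δ := by
      unfold wt
      rw [if_pos hm, Complex.norm_real, Real.norm_of_nonneg hδ]
    rw [a1]
    exact mul_le_mul_of_nonneg_left ((h.norm_U hp (by omega) _).trans (h.norm_V hp (by omega) _)) hδ
  rw [e1]
  refine (norm_add_le _ _).trans ((add_le_add h1 ((norm_add_le _ _).trans
    (add_le_add h2 h3))).trans (le_of_eq ?_))
  ring

lemma close_y (h : Cop p P U V (m + 2)) (hp : 0 < p) (hPA : P * A = A) (hAP : A * P = A)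
    (hA : ‖A‖ ≤ 1) {δ w : ℝ} (hδ : 0 ≤ δ) (hδw : δ ≤ w) (hw : w ≤ 1)
    {y : StrongDual ℂ E} {ε : ℝ}
    (hU : ∀ i < m + 2, 0 < i → ‖y.comp (U i)‖ ≤ ε) :
    ‖y.comp (bigO A U V m δ w) - y.comp A‖ ≤ 2 * (m + 1) * ε := by
  have e1 : y.comp (bigO A U V m δ w) - y.comp A =
      ∑ j ∈ range (m + 1), (y.comp (U (j + 1))).comp (A * V (j + 1)) +
      ∑ j ∈ range (m + 1), wt m δ w j • (y.comp (U (j + 1))).comp (V j) := by
    have e2 : (U 0 * A * V 0) = A := by rw [h.U0, h.V0, hPA, hAP]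
    unfold bigO
    rw [sum_range_succ' _ (m + 1), e2]
    ext z
    simp only [_root_.sub_apply, _root_.add_apply, _root_.sum_apply, _root_.smul_apply,
      ContinuousLinearMap.comp_apply, map_add, map_sum, map_smul]
    have e3 : ∀ k, (U (k + 1) * A * V (k + 1)) z = U (k + 1) ((A * V (k + 1)) z) := fun _ => rfl
    have e4 : ∀ k, (U (k + 1) * V k) z = U (k + 1) (V k z) := fun _ => rfl
    simp only [e3, e4]
    ring
  have h1 : ‖∑ j ∈ range (m + 1), (y.comp (U (j + 1))).comp (A * V (j + 1))‖ ≤ (m + 1) * ε := by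
    refine (norm_sum_le _ _).trans ?_
    refine (sum_le_sum (g := fun _ => ε) fun j hj => ?_).trans (le_of_eq (by simp))
    rw [mem_range] at hj
    refine (ContinuousLinearMap.opNorm_comp_le _ _).trans ?_
    have a1 : ‖A * V (j + 1)‖ ≤ 1 := (norm_mul_le _ _).trans
      (mul_le_one₀ hA (norm_nonneg _) (h.norm_V' hp (by omega)))
    exact (mul_le_of_le_one_right (norm_nonneg _) a1).trans (hU _ (by omega) (by omega))
  have h2 : ‖∑ j ∈ range (m + 1), wt m δ w j • (y.comp (U (j + 1))).comp (V j)‖ ≤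
      (m + 1) * ε := by
    refine (norm_sum_le _ _).trans ?_
    refine (sum_le_sum (g := fun _ => ε) fun j hj => ?_).trans (le_of_eq (by simp))
    rw [mem_range] at hj
    rw [norm_smul]
    have a1 : ‖wt m δ w j‖ ≤ 1 := (norm_wt_le hδ hδw _).trans hw
    refine (mul_le_of_le_one_left (norm_nonneg _) a1).trans ?_
    refine (ContinuousLinearMap.opNorm_comp_le _ _).trans ?_
    exact (mul_le_of_le_one_right (norm_nonneg _) (h.norm_V' hp (by omega))).trans
      (hU _ (by omega) (by omega))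
  rw [e1]
  refine (norm_add_le _ _).trans ((add_le_add h1 h2).trans (le_of_eq ?_))
  ring

lemma norm_xs (h : Cop p P U V (m + 2)) (hp : 0 < p) {ρ : ℝ} {u : ℕ → E}
    (hu : ∑ b ∈ range m, ‖u (b + 1)‖ ^ p ≤ ρ) :
    ‖∑ b ∈ range m, U (b + 1) (u (b + 1))‖ ≤ ρ ^ (1 / p) := by
  have hρ : 0 ≤ ρ := (sum_nonneg fun _ _ => by positivity).trans hu
  have h1 := h.up fun j => if 0 < j ∧ j < m + 1 then u j else 0
  have e1 : ∑ j ∈ range (m + 2), U j (if 0 < j ∧ j < m + 1 then u j else 0) =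
      ∑ b ∈ range m, U (b + 1) (u (b + 1)) := by
    rw [sum_range_succ' _ (m + 1), sum_range_succ]
    simp only [lt_irrefl, false_and, if_false, map_zero, add_zero, and_false]
    refine sum_congr rfl fun b hb => ?_
    rw [mem_range] at hb
    rw [if_pos ⟨by omega, by omega⟩]
  have e2 : ∑ j ∈ range (m + 2), ‖if 0 < j ∧ j < m + 1 then u j else 0‖ ^ p =
      ∑ b ∈ range m, ‖u (b + 1)‖ ^ p := by
    rw [sum_range_succ' _ (m + 1), sum_range_succ]
    simp only [lt_irrefl, false_and, if_false, norm_zero, Real.zero_rpow hp.ne', add_zero,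
      and_false]
    refine sum_congr rfl fun b hb => ?_
    rw [mem_range] at hb
    rw [if_pos ⟨by omega, by omega⟩]
  rw [e1, e2] at h1
  have h2 := Real.rpow_le_rpow (by positivity) (h1.trans hu) (show 0 ≤ 1 / p by positivity)
  rwa [← Real.rpow_mul (norm_nonneg _), mul_one_div_cancel hp.ne', Real.rpow_one] at h2

lemma norm_ys (h : Cop p P U V (m + 2)) (hpq : p.HolderConjugate q) {ρ : ℝ}
    {f : ℕ → StrongDual ℂ E} (hf : ∑ b ∈ range m, ‖f (b + 1)‖ ^ q ≤ ρ) :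
    ‖∑ b ∈ range m, (f (b + 1)).comp (V (b + 1))‖ ≤ ρ ^ (1 / q) := by
  have hp := hpq.pos
  have hq := hpq.symm.pos
  have hρ : 0 ≤ ρ := (sum_nonneg fun _ _ => by positivity).trans hf
  refine ContinuousLinearMap.opNorm_le_bound _ (by positivity) fun x => ?_
  rw [_root_.sum_apply]
  have h1 : ‖∑ b ∈ range m, ((f (b + 1)).comp (V (b + 1))) x‖ ≤
      ∑ b ∈ range m, ‖f (b + 1)‖ * ‖V (b + 1) x‖ :=
    (norm_sum_le _ _).trans (sum_le_sum fun b _ => (f (b + 1)).le_opNorm _)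
  refine h1.trans ?_
  have h2 := Real.inner_le_Lp_mul_Lq (range m) (fun b => ‖f (b + 1)‖) (fun b => ‖V (b + 1) x‖)
    hpq.symm
  simp only [abs_norm] at h2
  refine h2.trans ?_
  have h3 : ∑ b ∈ range m, ‖V (b + 1) x‖ ^ p ≤ ‖x‖ ^ p := by
    refine le_trans ?_ (h.lo x)
    rw [sum_range_succ' _ (m + 1)]
    have h4 : ∑ b ∈ range m, ‖V (b + 1) x‖ ^ p ≤ ∑ b ∈ range (m + 1), ‖V (b + 1) x‖ ^ p :=
      sum_le_sum_of_subset_of_nonneg (range_mono (by omega)) fun _ _ _ => by positivity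
    have h5 : 0 ≤ ‖V 0 x‖ ^ p := by positivity
    linarith
  have h4 := Real.rpow_le_rpow (sum_nonneg fun _ _ => by positivity) h3
    (show 0 ≤ 1 / p by positivity)
  rw [← Real.rpow_mul (norm_nonneg x), mul_one_div_cancel hp.ne', Real.rpow_one] at h4
  have h5 := Real.rpow_le_rpow (sum_nonneg fun _ _ => by positivity) hf
    (show 0 ≤ 1 / q by positivity)
  exact mul_le_mul h5 h4 (by positivity) (by positivity)

end close

theorem step_room [FirstCountableTopology W] {p q : ℝ} (hpq : p.HolderConjugate q)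
    (hE : Refl E) (hMA : MAP E) (hRoom : Room p E) (h : BallS Φ) {x : E} {y : StrongDual ℂ E}
    {ρ : ℝ} (hρ : 0 < ρ) {w0 : W} (hw0 : w0 ∈ interior (HS Φ x y ρ)) {V : Set W} (hV : IsOpen V)
    (hwV : w0 ∈ V) {d : ℕ → E} (hd : DenseRange d) {d' : ℕ → StrongDual ℂ E}
    (hd' : DenseRange d') {ε : ℝ} (hε : 0 < ε) (x0 : E) :
    ∃ w2 ∈ V, ∃ i j : ℕ, w2 ∈ interior (HS Φ (d i) (d' j) ε) ∧
      ‖d i - x‖ ≤ (2 * ρ) ^ (1 / p) + ε ∧ ‖d' j - y‖ ≤ (2 * ρ) ^ (1 / q) + ε ∧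
      ‖d' j x0 - y x0‖ ≤ ε := by
  classical
  have hp := hpq.pos
  have hp1 : 1 ≤ p := hpq.lt.le
  -- a block operator
  set ε1 : ℝ := min (ε / 8 / (1 + ‖x0‖)) (ρ / (1 + ‖x‖ + ‖y‖)) with hε1
  have hε10 : 0 < ε1 := lt_min (by positivity) (by positivity)
  have hε1a : ε1 * (1 + ‖x0‖) ≤ ε / 8 := by
    have : ε1 ≤ ε / 8 / (1 + ‖x0‖) := min_le_left _ _
    rwa [le_div_iff₀ (by positivity)] at this
  have hε1b : ε1 * (1 + ‖x‖ + ‖y‖) ≤ ρ := by
    have : ε1 ≤ ρ / (1 + ‖x‖ + ‖y‖) := min_le_right _ _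
    rwa [le_div_iff₀ (by positivity)] at this
  have hε1c : ε1 ≤ ε / 8 := by
    have := norm_nonneg x0
    nlinarith
  have hOo : IsOpen (interior (HS Φ x y ρ) ∩ V) := isOpen_interior.inter hV
  obtain ⟨w1, hw1, P, hPP, hP1, hx, hy, hext, hPA, hAP, hA1, χ, hχ, hχs⟩ :=
    exists_ss_op hE hMA hRoom h hOo (show w0 ∈ _ from ⟨hw0, hwV⟩) x y hε10
  set A := Φ w1 with hA
  set r : ℝ := ‖A‖ with hr
  have hr0 : 0 ≤ r := norm_nonneg _
  have hHM : HC A (P x) (y.comp P) (2 * ρ) := by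
    have h1 : HC (Φ w1) x y ρ := interior_subset hw1.1
    refine (h1.lip (x' := P x) (y' := y.comp P)).mono ?_
    have h2 : ‖P x‖ ≤ ‖x‖ := (P.le_opNorm x).trans (mul_le_of_le_one_left (norm_nonneg _) hP1)
    have h3 : ‖y.comp P - y‖ * ‖P x‖ ≤ ε1 * ‖x‖ := mul_le_mul hy h2 (norm_nonneg _) hε10.le
    have h4 : ‖y‖ * ‖P x - x‖ ≤ ‖y‖ * ε1 := mul_le_mul_of_nonneg_left hx (norm_nonneg _)
    nlinarith
  -- the functional on the commutant
  obtain ⟨m, u, f, hm, hu0, hf0, hu, hf, hrep⟩ := rep_nat hpq hE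
    (show 0 < 2 * ρ by positivity) hHM (show 0 < ε / 32 by positivity)
  set w : ℝ := (1 - r) / 2 with hw
  have hwp : 0 < w := by rw [hw]; linarith
  have hw1' : w ≤ 1 := by rw [hw]; linarith
  -- the neighbourhood of `w1`
  obtain ⟨X, Y, ε4, hε4, hnear⟩ := h.nhd w1 _ hOo hw1
  set M : ℝ := ∑ x ∈ X, ‖x‖ + 1 with hM
  have hMX : ∀ x ∈ X, ‖x‖ ≤ M := fun x hx => by have := le_sum_norm X hx; linarith
  have hM0 : 0 < M := by
    have h1 : 0 ≤ ∑ x ∈ X, ‖x‖ := sum_nonneg fun _ _ => norm_nonneg _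
    linarith
  set L : ℝ := (∑ a ∈ range (m + 1), ‖f a‖) * ∑ b ∈ range (m + 1), ‖u b‖ with hL
  have hL0 : 0 ≤ L := mul_nonneg (sum_nonneg fun _ _ => norm_nonneg _)
    (sum_nonneg fun _ _ => norm_nonneg _)
  -- the small weight
  obtain ⟨δ1, hδ10, hδ1, _⟩ := exists_small (a := M) (b := ε4 / 4) hM0.le (by positivity)
  obtain ⟨δ2, hδ20, hδ2, _⟩ := exists_small (a := L) (b := ε / 32 * w) hL0 (by positivity)
  set δ : ℝ := min δ1 (min δ2 w) with hδ
  have hδ0 : 0 < δ := lt_min hδ10 (lt_min hδ20 hwp)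
  have hδa : δ * M ≤ ε4 / 4 := (mul_le_mul_of_nonneg_right (min_le_left _ _) hM0.le).trans hδ1
  have hδb : δ / w * L ≤ ε / 32 := by
    rw [div_mul_eq_mul_div, div_le_iff₀ hwp]
    exact (mul_le_mul_of_nonneg_right ((min_le_right _ _).trans (min_le_left _ _)) hL0).trans hδ2
  have hδc : δ ≤ w := (min_le_right _ _).trans (min_le_right _ _)
  have hrw : r + w ≤ 1 := by rw [hw]; linarith
  -- the small number
  set K : ℝ := 2 * ((m : ℝ) + 1) + ∑ a ∈ range (m + 1), ‖f a‖ with hK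
  have hK0 : 0 ≤ K := by
    have h1 : 0 ≤ ∑ a ∈ range (m + 1), ‖f a‖ := sum_nonneg fun _ _ => norm_nonneg _
    positivity
  obtain ⟨ε', hε'0, hε'1, _⟩ := exists_small (a := K) (b := min (ε4 / 4) (ε / 16)) hK0
    (lt_min (by positivity) (by positivity))
  have hε'2 : ε' * K ≤ ε4 / 4 := hε'1.trans (min_le_left _ _)
  have hε'3 : ε' * K ≤ ε / 16 := hε'1.trans (min_le_right _ _)
  have hsf : 0 ≤ ∑ a ∈ range (m + 1), ‖f a‖ := sum_nonneg fun _ _ => norm_nonneg _
  have hm0 : (0 : ℝ) ≤ m := Nat.cast_nonneg m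
  have hmε : 2 * ((m : ℝ) + 1) * ε' ≤ ε' * K := by
    rw [hK]
    nlinarith
  obtain ⟨U, Vv, hCop, hfar⟩ := hext m (insert x0 X) Y ε' hε'0
  set T3 := bigO A U Vv m δ w with hT3
  have hT3n : ‖T3‖ ≤ 1 := (norm_bigO hCop hp hr0 le_rfl hδ0.le hδc).trans hrw
  obtain ⟨w3, hw3⟩ := h.surj T3 hT3n
  have hw3O : w3 ∈ interior (HS Φ x y ρ) ∩ V := by
    apply hnear
    · intro z hz
      rw [hw3]
      have h1 := close_x hCop hp hPA hAP hA1.le hm hδ0.le hδc hw1' (z := z)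
        (fun i hi hi0 => (hfar i hi hi0).1 z (mem_insert_of_mem hz))
      refine h1.trans_lt ?_
      have h2 := mul_le_mul_of_nonneg_left (hMX z hz) hδ0.le
      linarith
    · intro z hz
      rw [hw3]
      have h1 := close_y hCop hp hPA hAP hA1.le hδ0.le hδc hw1' (y := z)
        (fun i hi hi0 => (hfar i hi hi0).2 z hz)
      refine h1.trans_lt ?_
      linarith
  -- the new pair
  set x' := ∑ b ∈ range (m + 1), U b (u b) with hx'
  set y' := ∑ a ∈ range (m + 1), (f a).comp (Vv a) with hy'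
  have hPx2 : P (P x) = P x := congrArg (fun T : E →L[ℂ] E => T x) hPP
  have b1 : ‖x' - x‖ ≤ (2 * ρ) ^ (1 / p) + ε / 4 := by
    have e1 : x' - x = ∑ b ∈ range m, U (b + 1) (u (b + 1)) + (P x - x) := by
      rw [hx', sum_range_succ', hCop.U0, hu0, hPx2]
      abel
    rw [e1]
    refine (norm_add_le _ _).trans ?_
    have := norm_xs hCop hp hu
    linarith
  have hyP2 : (y.comp P).comp P = y.comp P := by
    rw [ContinuousLinearMap.comp_assoc]
    congr 1
  have b2 : ‖y' - y‖ ≤ (2 * ρ) ^ (1 / q) + ε / 4 := by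
    have e1 : y' - y = ∑ b ∈ range m, (f (b + 1)).comp (Vv (b + 1)) + (y.comp P - y) := by
      rw [hy', sum_range_succ', hCop.V0, hf0, hyP2]
      abel
    rw [e1]
    refine (norm_add_le _ _).trans ?_
    have := norm_ys hCop hpq hf
    linarith
  have b3 : ‖y' x0 - y x0‖ ≤ ε / 4 := by
    have e1 : y' x0 - y x0 = ∑ b ∈ range m, (f (b + 1)) (Vv (b + 1) x0) + (y.comp P - y) x0 := by
      rw [hy', sum_range_succ', hCop.V0, hf0, hyP2, _root_.add_apply, _root_.sum_apply,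
        _root_.sub_apply]
      simp only [ContinuousLinearMap.comp_apply]
      ring
    rw [e1]
    have h1 : ‖∑ b ∈ range m, (f (b + 1)) (Vv (b + 1) x0)‖ ≤ ε' * K := by
      refine (norm_sum_le _ _).trans ?_
      have h2 : ∑ b ∈ range m, ‖(f (b + 1)) (Vv (b + 1) x0)‖ ≤
          ∑ b ∈ range m, ‖f (b + 1)‖ * ε' := by
        refine sum_le_sum fun b hb => ?_
        rw [mem_range] at hb
        refine ((f (b + 1)).le_opNorm _).trans (mul_le_mul_of_nonneg_left ?_ (norm_nonneg _))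
        exact (hfar (b + 1) (by omega) (by omega)).1 x0 (mem_insert_self _ _)
      refine h2.trans ?_
      rw [← sum_mul, mul_comm]
      refine mul_le_mul_of_nonneg_left ?_ hε'0.le
      rw [hK, sum_range_succ' _ m]
      have := norm_nonneg (f 0)
      linarith
    have h4 : ‖(y.comp P - y) x0‖ ≤ ε1 * (1 + ‖x0‖) := by
      refine ((y.comp P - y).le_opNorm x0).trans ?_
      refine mul_le_mul hy (by linarith) (norm_nonneg _) hε10.le
    refine (norm_add_le _ _).trans ?_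
    linarith
  have hHB : HC (Φ w3) x' y' (2 * (ε / 32)) := by
    rw [hw3]
    exact bigO_HC hCop hp hPA hAP hχ hχs hrep hδ0 hwp hδb
  -- the dense sets
  set δ' : ℝ := min (min (ε / 4) (ε / 4 / (‖x0‖ + 1))) (min 1 (ε / 8 / (‖y'‖ + ‖x'‖ + 1))) with hδ'
  have hδ'0 : 0 < δ' := by
    rw [hδ']
    exact lt_min (lt_min (by positivity) (by positivity)) (lt_min one_pos (by positivity))
  have hδ'1 : δ' ≤ ε / 4 := (min_le_left _ _).trans (min_le_left _ _)
  have hδ'2 : δ' * (‖x0‖ + 1) ≤ ε / 4 := by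
    have : δ' ≤ ε / 4 / (‖x0‖ + 1) := (min_le_left _ _).trans (min_le_right _ _)
    rwa [le_div_iff₀ (by positivity)] at this
  have hδ'3 : δ' ≤ 1 := (min_le_right _ _).trans (min_le_left _ _)
  have hδ'4 : δ' * (‖y'‖ + ‖x'‖ + 1) ≤ ε / 8 := by
    have : δ' ≤ ε / 8 / (‖y'‖ + ‖x'‖ + 1) := (min_le_right _ _).trans (min_le_right _ _)
    rwa [le_div_iff₀ (by positivity)] at this
  obtain ⟨i, hi⟩ := hd.exists_dist_lt x' hδ'0
  obtain ⟨j, hj⟩ := hd'.exists_dist_lt y' hδ'0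
  rw [dist_eq_norm] at hi hj
  have hi' : ‖d i - x'‖ < δ' := by rwa [norm_sub_rev] at hi
  have hj' : ‖d' j - y'‖ < δ' := by rwa [norm_sub_rev] at hj
  refine ⟨w3, hw3O.2, i, j, ?_, ?_, ?_, ?_⟩
  · have h1 : HC (Φ w3) (d i) (d' j) (2 * (ε / 32) + ε / 4) := by
      refine (hHB.lip (x' := d i) (y' := d' j)).mono ?_
      have h2 : ‖d i‖ ≤ ‖x'‖ + 1 := by
        have : d i = x' + (d i - x') := by abel
        rw [this]
        exact (norm_add_le _ _).trans (by linarith)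
      have h3 : ‖d' j - y'‖ * ‖d i‖ ≤ δ' * (‖x'‖ + 1) :=
        mul_le_mul hj'.le h2 (norm_nonneg _) hδ'0.le
      have h4 : ‖y'‖ * ‖d i - x'‖ ≤ ‖y'‖ * δ' := mul_le_mul_of_nonneg_left hi'.le (norm_nonneg _)
      linarith
    exact mem_interior_HSO h hE h1 (by linarith)
  · have e1 : d i - x = (x' - x) + (d i - x') := by abel
    rw [e1]
    exact (norm_add_le _ _).trans (by linarith)
  · have e1 : d' j - y = (y' - y) + (d' j - y') := by abel
    rw [e1]
    exact (norm_add_le _ _).trans (by linarith)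
  · have e1 : d' j x0 - y x0 = (y' x0 - y x0) + (d' j - y') x0 := by
      rw [_root_.sub_apply]
      ring
    rw [e1]
    refine (norm_add_le _ _).trans ?_
    have h1 : ‖(d' j - y') x0‖ ≤ δ' * (‖x0‖ + 1) := by
      refine ((d' j - y').le_opNorm _).trans ?_
      exact mul_le_mul hj'.le (by linarith) (norm_nonneg _) hδ'0.le
    linarith

end Run7.h667.TC
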